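import Pool.Agent.H177Z.DelMain

/-!
The regularity radius of Delone sets in terms of the Jordan constant of the orthogonal group.
-/

set_option autoImplicit false

namespace Pool.Agent.H177Z.Del

open scoped InnerProductSpace

variable {E : Type*} [NormedAddCommGroup E] [InnerProductSpace ℝ E] [FiniteDimensional ℝ E]

/-- a commutative group of orthogonal maps without small rotations has at most `5 ^ d` elements -/
theorem card_le_comm (A : Subgroup (E ≃ₗᵢ[ℝ] E)) [Finite A]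
    (hc : ∀ a ∈ A, ∀ b ∈ A, a * b = b * a)
    (h : ∀ a ∈ A, ∀ e < (1 / 2 : ℝ), SmallL e a → a = 1) :
    Nat.card A ≤ 5 ^ Module.finrank ℝ E := by
  classical
  let M : A → Module.End ℝ E := fun a => a.1.toLinearEquiv.toLinearMap - 1
  let M' : A → Module.End ℝ E := fun a => (a.1⁻¹).toLinearEquiv.toLinearMap - 1
  have hM : ∀ y v, M y v = y.1 v - v := fun _ _ => rfl
  have hM' : ∀ y v, M' y v = (y.1)⁻¹ v - v := fun _ _ => rfl
  have hadj : ∀ y u v, ⟪M' y u, v⟫_ℝ = ⟪u, M y v⟫_ℝ := by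
    intro y u v
    rw [hM, hM', inner_sub_left, inner_sub_right, inner_inv_left]
  have cl : ∀ y z : A, Commute y.1 z.1 := fun y z => hc _ y.2 _ z.2
  have toE0 : ∀ A B : E ≃ₗᵢ[ℝ] E, Commute A B →
      Commute (A.toLinearEquiv.toLinearMap : Module.End ℝ E)
        (B.toLinearEquiv.toLinearMap : Module.End ℝ E) := by
    intro A B hAB
    apply LinearMap.ext
    intro v
    exact congrArg (fun F : E ≃ₗᵢ[ℝ] E => F v) hAB.eq
  have toE : ∀ A B : E ≃ₗᵢ[ℝ] E, Commute A B →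
      Commute ((A.toLinearEquiv.toLinearMap : Module.End ℝ E) - 1)
        ((B.toLinearEquiv.toLinearMap : Module.End ℝ E) - 1) := by
    intro A B hAB
    exact (((toE0 A B hAB).sub_left (Commute.one_left _)).sub_right (Commute.one_right _))
  have c1 : ∀ y z, Commute (M y) (M z) := fun y z => toE _ _ (cl y z)
  have c2 : ∀ y z, Commute (M y) (M' z) := fun y z => toE _ _ (cl y z).inv_right
  have c3 : ∀ y z, Commute (M' y) (M' z) := fun y z => toE _ _ (cl y z).inv_left.inv_right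
  let T : A → Module.End ℝ E := fun y => M' y * M y
  have hT : ∀ y, (T y).IsSymmetric := by
    intro y u v
    change ⟪M' y (M y u), v⟫_ℝ = ⟪u, M' y (M y v)⟫_ℝ
    rw [hadj, real_inner_comm, ← hadj, real_inner_comm]
  have q2 : ∀ y z, Commute (T y) (T z) := by
    intro y z
    exact ((c3 y z).mul_right (c2 z y).symm).mul_left ((c2 y z).mul_right (c1 y z))
  have q3 : ∀ y z : A, Commute (T y) (z.1.toLinearEquiv.toLinearMap : Module.End ℝ E) := by
    intro y z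
    exact ((toE0 _ _ (cl y z).inv_left).sub_left (Commute.one_left _)).mul_left
      ((toE0 _ _ (cl y z)).sub_left (Commute.one_left _))
  have q4 : ∀ y v, ⟪T y v, v⟫_ℝ = ‖y.1 v - v‖ ^ 2 := by
    intro y v
    change ⟪M' y (M y v), v⟫_ℝ = _
    rw [hadj, real_inner_self_eq_norm_sq, hM]
  let W : (A → ℝ) → Submodule ℝ E := fun χ => ⨅ i, Module.End.eigenspace (T i) (χ i)
  have htop : ⨆ χ, W χ = ⊤ :=
    LinearMap.IsSymmetric.iSup_iInf_eq_top_of_commute hT (fun i j _ => q2 i j)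
  have horth := LinearMap.IsSymmetric.orthogonalFamily_iInf_eigenspaces hT
  have hW : ∀ χ w, w ∈ W χ ↔ ∀ i, T i w = χ i • w := by
    intro χ w
    simp only [W, Submodule.mem_iInf, Module.End.mem_eigenspace_iff]
  have hWinv : ∀ χ (a : A) w, w ∈ W χ → a.1 w ∈ W χ := by
    intro χ a w hw
    rw [hW] at hw ⊢
    intro i
    have := congrArg (fun F : Module.End ℝ E => F w) (q3 i a).eq
    change T i (a.1 w) = a.1 (T i w) at this
    rw [this, hw i, map_smul]
  let Λ := {χ : A → ℝ // W χ ≠ ⊥}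
  have hex : ∀ χ : Λ, ∃ w : E, w ∈ W χ.1 ∧ ‖w‖ = 1 := by
    intro χ
    obtain ⟨u, hu, hu0⟩ := (Submodule.ne_bot_iff _).1 χ.2
    have hun : 0 < ‖u‖ := norm_pos_iff.2 hu0
    refine ⟨(‖u‖⁻¹ : ℝ) • u, Submodule.smul_mem _ _ hu, ?_⟩
    simp only [norm_smul, norm_inv, norm_norm]; field_simp
  choose w hwW hwn using hex
  have horthΛ : OrthogonalFamily ℝ (fun χ : Λ => (W χ.1 : Submodule ℝ E))
      fun χ : Λ => (W χ.1).subtypeₗᵢ := horth.comp Subtype.val_injective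
  have hindep : iSupIndep (fun χ : Λ => W χ.1) := horthΛ.independent
  have : Fintype Λ := hindep.fintypeNeBotOfFiniteDimensional.ofInjective
    (fun χ : Λ => (⟨χ, χ.2⟩ : {χ : Λ // W χ.1 ≠ ⊥})) (fun _ _ h => congrArg Subtype.val h)
  have htopΛ : ⨆ χ : Λ, W χ.1 = ⊤ := by
    rw [← top_le_iff, ← htop]
    refine iSup_le fun χ => ?_
    by_cases hb : W χ = ⊥
    · rw [hb]; exact bot_le
    · exact le_iSup (fun χ : Λ => W χ.1) ⟨χ, hb⟩
  have hint : DirectSum.IsInternal (fun χ : Λ => W χ.1) :=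
    DirectSum.isInternal_submodule_of_iSupIndep_of_iSup_eq_top hindep htopΛ
  have hrank : Module.finrank ℝ (∀ χ : Λ, W χ.1) = Module.finrank ℝ E := by
    rw [Module.finrank_pi_fintype, ← Module.finrank_directSum]
    exact (LinearEquiv.ofBijective (DirectSum.coeLinearMap fun χ : Λ => W χ.1) hint).finrank_eq
  -- smallness can be tested on the vectors `w χ`
  have hsmall : ∀ (c : A) (e : ℝ), 0 ≤ e → (∀ χ : Λ, ‖c.1 (w χ) - w χ‖ ≤ e) → SmallL e c.1 := by
    intro c e he hce v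
    have hval : ∀ χ : Λ, χ.1 c ≤ e ^ 2 := by
      intro χ
      have h1 := q4 c (w χ)
      rw [(hW _ _).1 (hwW χ) c, real_inner_smul_left, real_inner_self_eq_norm_sq, hwn] at h1
      have h2 := hce χ
      nlinarith [norm_nonneg (c.1 (w χ) - w χ)]
    obtain ⟨f, rfl⟩ := hint.2 v
    have hv : DirectSum.coeAddMonoidHom (fun χ : Λ => W χ.1) f = ∑ χ : Λ, ((f χ : W χ.1) : E) := by
      rw [DirectSum.coeAddMonoidHom_eq_dfinsuppSum, DFinsupp.sum,
        Finset.sum_subset (Finset.subset_univ _)]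
      intro χ _ hχ
      rw [DFinsupp.notMem_support_iff.1 hχ]; rfl
    rw [hv]
    let g : ∀ χ : Λ, W χ.1 := fun χ => ⟨c.1 (f χ) - f χ,
      Submodule.sub_mem _ (hWinv _ c _ (f χ).2) (f χ).2⟩
    have e1 : c.1 (∑ χ : Λ, ((f χ : W χ.1) : E)) - ∑ χ : Λ, ((f χ : W χ.1) : E)
        = ∑ χ : Λ, (W χ.1).subtypeₗᵢ (g χ) := by
      rw [map_sum, ← Finset.sum_sub_distrib]; rfl
    have e2 := horthΛ.norm_sum g Finset.univ
    have e3 := horthΛ.norm_sum (fun χ => f χ) Finset.univ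
    have e4 : ∀ χ : Λ, ‖g χ‖ ^ 2 ≤ e ^ 2 * ‖f χ‖ ^ 2 := by
      intro χ
      have h1 := q4 c (f χ)
      rw [(hW _ _).1 (f χ).2 c, real_inner_smul_left, real_inner_self_eq_norm_sq] at h1
      change ‖c.1 (f χ) - f χ‖ ^ 2 ≤ e ^ 2 * ‖((f χ : W χ.1) : E)‖ ^ 2
      rw [← h1]
      exact mul_le_mul_of_nonneg_right (hval χ) (sq_nonneg _)
    rw [e1]
    apply le_of_sq_le_sq _ (by positivity)
    rw [e2, mul_pow]
    change _ ≤ e ^ 2 * ‖∑ χ : Λ, (W χ.1).subtypeₗᵢ (f χ)‖ ^ 2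
    rw [e3, Finset.mul_sum]
    exact Finset.sum_le_sum fun χ _ => e4 χ
  let φ : A → (∀ χ : Λ, W χ.1) := fun a χ => (2 : ℝ) • ⟨a.1 (w χ), hWinv _ a _ (hwW χ)⟩
  have hn : ∀ a, ‖φ a‖ ≤ 2 := by
    intro a
    rw [pi_norm_le_iff_of_nonneg (by norm_num)]
    intro χ
    simp only [φ, norm_smul, Real.norm_ofNat]
    change 2 * ‖a.1 (w χ)‖ ≤ 2
    rw [a.1.norm_map, hwn]; norm_num
  have hsep : ∀ a b, a ≠ b → 1 ≤ ‖φ a - φ b‖ := by
    intro a b hne
    by_contra hlt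
    push Not at hlt
    apply hne
    have h1 := h (b⁻¹ * a).1 (b⁻¹ * a).2 (‖φ a - φ b‖ / 2) (by linarith)
      (hsmall _ _ (by positivity) ?_)
    · exact (inv_mul_eq_one.1 (Subtype.ext h1 : b⁻¹ * a = 1)).symm
    · intro χ
      have h2 := norm_le_pi_norm (φ a - φ b) χ
      have h3 : ‖(φ a - φ b) χ‖ = 2 * ‖a.1 (w χ) - b.1 (w χ)‖ := by
        simp only [φ, Pi.sub_apply, ← smul_sub, norm_smul, Real.norm_ofNat]
        rfl
      have h4 : ‖(b⁻¹ * a).1 (w χ) - w χ‖ = ‖a.1 (w χ) - b.1 (w χ)‖ := by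
        rw [← b.1.norm_map, map_sub]
        change ‖b.1 (b.1⁻¹ (a.1 (w χ))) - _‖ = _
        rw [apply_inv_self']
      rw [h4]; linarith
  have hinj : Function.Injective φ := by
    intro g g' hgg
    by_contra hne
    have := hsep g g' hne
    rw [hgg, sub_self, norm_zero] at this
    linarith
  have := Fintype.ofFinite A
  rw [Nat.card_eq_fintype_card, ← hrank, ← Finset.card_univ,
    ← Finset.card_image_of_injective _ hinj]
  apply Besicovitch.card_le_of_separated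
  · intro c hc
    obtain ⟨g, _, rfl⟩ := Finset.mem_image.1 hc
    exact hn g
  · intro c hc d hd hcd
    obtain ⟨g, _, rfl⟩ := Finset.mem_image.1 hc
    obtain ⟨g', _, rfl⟩ := Finset.mem_image.1 hd
    exact hsep g g' (fun hh => hcd (by rw [hh]))

/-- the linear part as a homomorphism -/
noncomputable def linHom : (E ≃ᵢ E) →* (E ≃ₗᵢ[ℝ] E) where
  toFun := lin
  map_one' := lin_one
  map_mul' := lin_mul

/-- The regularity radius in terms of the Jordan constant. -/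
theorem regular_jordan {J : ℕ}
    (hJ : ∀ H : Subgroup (E ≃ₗᵢ[ℝ] E), Finite H → ∃ A : Subgroup (E ≃ₗᵢ[ℝ] E), A ≤ H ∧
      (∀ a ∈ A, ∀ b ∈ A, a * b = b * a) ∧ Nat.card H ≤ J * Nat.card A)
    {X : Set E} {R r ρ : ℝ} (hR : 0 < R) (hr : 0 < r)
    (hcov : ∀ p : E, ∃ z ∈ X, dist p z ≤ R)
    (hsep : ∀ y ∈ X, ∀ z ∈ X, y ≠ z → r ≤ dist y z)
    (hρ : (17 * (Module.finrank ℝ E : ℝ) + 3 * Real.logb 2 J + 10) * R ≤ ρ)
    (hiso : ∀ x ∈ X, ∀ y ∈ X, ∃ f : E ≃ᵢ E, f x = y ∧ Loc X ρ x f) :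
    ∀ x ∈ X, ∀ y ∈ X, ∃ f : E ≃ᵢ E, f x = y ∧ f '' X = X := by
  obtain ⟨o, ho, _⟩ := hcov 0
  set d := Module.finrank ℝ E with hd
  have hd0 : (0 : ℝ) ≤ d := Nat.cast_nonneg _
  have hJ1 : 1 ≤ J := by
    obtain ⟨A, _, _, h3⟩ := hJ ⊥ inferInstance
    rw [Subgroup.card_bot] at h3
    rcases Nat.eq_zero_or_pos J with h | h
    · rw [h] at h3; omega
    · exact h
  have hlog : ((Nat.log 2 J : ℕ) : ℝ) ≤ Real.logb 2 J := by
    have := Real.natLog_le_logb J 2
    exact_mod_cast this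
  have hlog0 : (0 : ℝ) ≤ ((Nat.log 2 J : ℕ) : ℝ) := Nat.cast_nonneg _
  have hiso' : ∀ t ≤ ρ, ∀ x ∈ X, ∀ y ∈ X, ∃ f : E ≃ᵢ E, f x = y ∧ Loc X t x f := by
    intro t ht x hx y hy
    obtain ⟨f, h1, h2⟩ := hiso x hx y hy
    exact ⟨f, h1, h2.mono' ht⟩
  let H : ℕ → Subgroup (E ≃ᵢ E) := fun k => Stab X ((8 * d + 7) * R + k * (3 * R)) o
  have hH : ∀ k, H (k + 1) ≤ H k := fun k => Stab.anti (by push_cast; linarith)
  have hns : ∀ g ∈ H 0, ∀ e < (1 / 2 : ℝ), SmallL e (lin g) → g = 1 := by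
    intro g hg e he hge
    refine no_small hR hr hcov hsep (t := (8 * d + 7) * R + (0 : ℕ) * (3 * R)) (by simp [hd])
      (hiso' _ ?_) ho hg.1 hg.2 he hge
    simp only [Nat.cast_zero, zero_mul, add_zero]
    nlinarith
  obtain ⟨hfin, -⟩ := card_le hns
  have hfin' : Finite ((H 0).map linHom) := Finite.of_surjective _ (linHom.subgroupMap_surjective _)
  obtain ⟨A, hA, hAc, hAJ⟩ := hJ _ hfin'
  have : Finite A := Finite.of_injective _ (Subgroup.inclusion_injective hA)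
  have hA5 : Nat.card A ≤ 5 ^ d := by
    apply card_le_comm A hAc
    intro a ha e he hae
    obtain ⟨g, hg, rfl⟩ := hA ha
    rw [hns g hg e he hae, map_one]
  have hcard : Nat.card (H 0) ≤ Nat.card ((H 0).map linHom) := by
    apply Nat.card_le_card_of_injective (linHom.subgroupMap (H 0))
    rw [injective_iff_map_eq_one]
    intro g hg
    apply Subtype.ext
    apply hns g.1 g.2 0 (by norm_num)
    have h1 : lin g.1 = 1 := congrArg Subtype.val hg
    rw [h1]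
    intro v; simp
  obtain ⟨k, hk, hst⟩ := chain H hH hfin (3 * d + Nat.log 2 J + 1) (by
    refine lt_of_le_of_lt (hcard.trans (hAJ.trans (Nat.mul_le_mul_left _ hA5))) ?_
    have h1 : J < 2 ^ (Nat.log 2 J + 1) := Nat.lt_pow_succ_log_self (by norm_num) J
    have h2 : 5 ^ d ≤ (2 ^ 3) ^ d := Nat.pow_le_pow_left (by norm_num) _
    have h3 : 0 < 5 ^ d := by positivity
    calc J * 5 ^ d < 2 ^ (Nat.log 2 J + 1) * 5 ^ d := Nat.mul_lt_mul_of_pos_right h1 h3
      _ ≤ 2 ^ (Nat.log 2 J + 1) * (2 ^ 3) ^ d := Nat.mul_le_mul_left _ h2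
      _ = _ := by rw [← pow_mul, ← pow_add]; congr 1; ring)
  have hk' : (k : ℝ) ≤ 3 * d + Real.logb 2 J := by
    have : k ≤ 3 * d + Nat.log 2 J := by omega
    have h2 : (k : ℝ) ≤ ((3 * d + Nat.log 2 J : ℕ) : ℝ) := by exact_mod_cast this
    push_cast at h2
    linarith
  refine local_theorem hR (t := (8 * d + 7) * R + k * (3 * R)) (by positivity) hcov
    (hiso' _ (by nlinarith)) ho ?_
  have e : (8 * (d : ℝ) + 7) * R + k * (3 * R) + 3 * R
      = (8 * d + 7) * R + ((k + 1 : ℕ) : ℝ) * (3 * R) := by push_cast; ring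
  rw [e]
  exact hst

end Pool.Agent.H177Z.Del
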