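import Mathlib

/-!
Linear algebra for the regularity radius of Delone sets: small orthogonal maps and their
commutators, and commuting families of symmetric maps.
-/

set_option autoImplicit false

namespace Pool.Agent.H177Z.Del

open scoped InnerProductSpace

variable {E : Type*} [NormedAddCommGroup E] [InnerProductSpace ℝ E]

/-- `A` moves every vector by at most `b` times its length. -/
def SmallL (b : ℝ) (A : E ≃ₗᵢ[ℝ] E) : Prop := ∀ v, ‖A v - v‖ ≤ b * ‖v‖

theorem SmallL.mono {b b' : ℝ} {A : E ≃ₗᵢ[ℝ] E} (h : SmallL b A) (hb : b ≤ b') : SmallL b' A :=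
  fun v => (h v).trans (mul_le_mul_of_nonneg_right hb (norm_nonneg v))

theorem inv_apply_self' (A : E ≃ₗᵢ[ℝ] E) (v : E) : A⁻¹ (A v) = v := A.symm_apply_apply v

theorem apply_inv_self' (A : E ≃ₗᵢ[ℝ] E) (v : E) : A (A⁻¹ v) = v := A.apply_symm_apply v

theorem mul_apply' (A B : E ≃ₗᵢ[ℝ] E) (v : E) : (A * B) v = A (B v) := rfl

theorem SmallL.comm {e b : ℝ} {A C : E ≃ₗᵢ[ℝ] E} (he : 0 ≤ e) (hb : 0 ≤ b) (hA : SmallL e A)
    (hC : SmallL b C) : SmallL (2 * e * b) (C⁻¹ * A * C * A⁻¹) := by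
  intro v
  set w := A⁻¹ v with hw
  have hv : v = A w := (apply_inv_self' A v).symm
  have hnw : ‖w‖ = ‖v‖ := by rw [hw]; exact (A⁻¹).norm_map v
  have h1 : ‖(C⁻¹ * A * C * A⁻¹) v - v‖ = ‖A (C w) - C (A w)‖ := by
    rw [← C.norm_map, map_sub]
    simp only [mul_apply', apply_inv_self', ← hw]
    rw [← hv]
  have h2 : A (C w) - C (A w) = (A (C w - w) - (C w - w)) - (C (A w - w) - (A w - w)) := by
    simp only [map_sub]; abel
  rw [h1, h2]
  have h3 := hA (C w - w)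
  have h4 := hC (A w - w)
  have h5 := hC w
  have h6 := hA w
  have h7 : e * ‖C w - w‖ ≤ e * (b * ‖w‖) := mul_le_mul_of_nonneg_left h5 he
  have h8 : b * ‖A w - w‖ ≤ b * (e * ‖w‖) := mul_le_mul_of_nonneg_left h6 hb
  calc _ ≤ ‖A (C w - w) - (C w - w)‖ + ‖C (A w - w) - (A w - w)‖ := norm_sub_le _ _
    _ ≤ e * (b * ‖w‖) + b * (e * ‖w‖) := by linarith
    _ = 2 * e * b * ‖v‖ := by rw [hnw]; ring

theorem SmallL.conj {e : ℝ} {A : E ≃ₗᵢ[ℝ] E} (hA : SmallL e A) (F : E ≃ₗᵢ[ℝ] E) :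
    SmallL e (F * A * F⁻¹) := by
  intro v
  have h1 : (F * A * F⁻¹) v - v = F (A (F⁻¹ v) - F⁻¹ v) := by
    rw [map_sub, apply_inv_self']; rfl
  rw [h1, F.norm_map]
  have := hA (F⁻¹ v)
  rwa [(F⁻¹).norm_map v] at this

theorem inner_inv_left (A : E ≃ₗᵢ[ℝ] E) (u v : E) : ⟪A⁻¹ u, v⟫_ℝ = ⟪u, A v⟫_ℝ := by
  conv_rhs => rw [← apply_inv_self' A u]
  exact (A.inner_map_map _ _).symm

theorem inner_inv_right (A : E ≃ₗᵢ[ℝ] E) (u v : E) : ⟪u, A⁻¹ v⟫_ℝ = ⟪A u, v⟫_ℝ := by
  rw [real_inner_comm, inner_inv_left, real_inner_comm]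

/-- the range of `A - 1` is orthogonal to the fixed vectors of `A` -/
theorem inner_sub_fixed (A : E ≃ₗᵢ[ℝ] E) (u f : E) (hf : A f = f) : ⟪A u - u, f⟫_ℝ = 0 := by
  rw [inner_sub_left]
  have : ⟪A u, f⟫_ℝ = ⟪u, f⟫_ℝ := by
    conv_lhs => rw [← hf]
    exact A.inner_map_map _ _
  rw [this, sub_self]

variable [FiniteDimensional ℝ E]

/-- Frobenius' lemma: if `A` commutes with its commutator with a small `C`, then `A` and `C`
commute. -/
theorem frobenius {b : ℝ} {A C : E ≃ₗᵢ[ℝ] E} (hb : b < 1) (hC : SmallL b C)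
    (h : Commute A (C⁻¹ * A * C * A⁻¹)) : Commute A C := by
  set D : E ≃ₗᵢ[ℝ] E := C⁻¹ * A * C with hD
  have hAD : Commute A D := by
    have h1 : D = (D * A⁻¹) * A := by group
    rw [h1]
    exact h.mul_right (Commute.refl A)
  have hADi : Commute A D⁻¹ := hAD.inv_right
  let a : Module.End ℝ E := A.toLinearEquiv.toLinearMap
  let c : Module.End ℝ E := C.toLinearEquiv.toLinearMap
  let N : Module.End ℝ E := D.toLinearEquiv.toLinearMap - a
  let M : Module.End ℝ E := (D⁻¹).toLinearEquiv.toLinearMap - (A⁻¹).toLinearEquiv.toLinearMap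
  have hN : ∀ v, N v = D v - A v := fun v => rfl
  have hM : ∀ v, M v = D⁻¹ v - A⁻¹ v := fun v => rfl
  have hcN : c * N = a * c - c * a := by
    ext v
    change C (D v - A v) = A (C v) - C (A v)
    rw [map_sub, hD]
    simp only [mul_apply', apply_inv_self']
  have hMa : M * a = a * M := by
    ext v
    change D⁻¹ (A v) - A⁻¹ (A v) = A (D⁻¹ v - A⁻¹ v)
    rw [map_sub, inv_apply_self', apply_inv_self']
    have := congrArg (fun F : E ≃ₗᵢ[ℝ] E => F v) hADi.eq
    simp only [mul_apply'] at this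
    rw [this]
  have htr : LinearMap.trace ℝ E (M * (c * N)) = 0 := by
    rw [hcN, mul_sub, map_sub, ← mul_assoc M c a, LinearMap.trace_mul_comm ℝ (M * c) a,
      ← mul_assoc, ← mul_assoc, hMa, sub_self]
  let bs := stdOrthonormalBasis ℝ E
  rw [LinearMap.trace_eq_sum_inner _ bs] at htr
  have hterm : ∀ i, ⟪bs i, (M * (c * N)) (bs i)⟫_ℝ = ⟪N (bs i), C (N (bs i))⟫_ℝ := by
    intro i
    change ⟪bs i, D⁻¹ (C (N (bs i))) - A⁻¹ (C (N (bs i)))⟫_ℝ = _
    rw [inner_sub_right, inner_inv_right, inner_inv_right, ← inner_sub_left, ← hN]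
  simp only [hterm] at htr
  have hpos : ∀ v : E, (1 - b) * ‖v‖ ^ 2 ≤ ⟪v, C v⟫_ℝ := by
    intro v
    have h1 : ⟪v, C v⟫_ℝ = ‖v‖ ^ 2 + ⟪v, C v - v⟫_ℝ := by
      rw [inner_sub_right, real_inner_self_eq_norm_sq]; ring
    have h2 := abs_real_inner_le_norm v (C v - v)
    have h3 := mul_le_mul_of_nonneg_left (hC v) (norm_nonneg v)
    have h4 := neg_abs_le ⟪v, C v - v⟫_ℝ
    nlinarith
  have hnn : ∀ i ∈ Finset.univ, 0 ≤ ⟪N (bs i), C (N (bs i))⟫_ℝ := by
    intro i _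
    refine le_trans ?_ (hpos _)
    have : 0 ≤ 1 - b := by linarith
    positivity
  have hz := (Finset.sum_eq_zero_iff_of_nonneg hnn).1 htr
  have hN0 : N = 0 := by
    apply bs.toBasis.ext
    intro i
    have h1 := hz i (Finset.mem_univ i)
    have h2 := hpos (N (bs i))
    rw [h1] at h2
    have h3 : ‖N (bs i)‖ ^ 2 ≤ 0 := by
      by_contra hh
      push Not at hh
      have : 0 < (1 - b) * ‖N (bs i)‖ ^ 2 := mul_pos (by linarith) hh
      linarith
    have h4 : ‖N (bs i)‖ = 0 := by nlinarith [norm_nonneg (N (bs i))]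
    simpa using h4
  rw [hN0, mul_zero] at hcN
  apply LinearIsometryEquiv.ext
  intro v
  have := congrArg (fun F : Module.End ℝ E => F v) hcN
  change (0 : E) = A (C v) - C (A v) at this
  change A (C v) = C (A v)
  exact sub_eq_zero.1 this.symm

/-- A commuting family of nonzero symmetric maps indexed by points, with
`T x (T y (y - x)) = 0`: the points miss a ball of radius `s` whose centre is within `s * dim` of
any given point. -/
theorem hole {ι : Type*} (P : ι → E) (T : ι → Module.End ℝ E) (hT : ∀ i, (T i).IsSymmetric)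
    (hc : ∀ i j, Commute (T i) (T j)) (h0 : ∀ i, T i ≠ 0)
    (hP : ∀ i j, T i (T j (P j - P i)) = 0) (o : E) (s : ℝ) (hs : 0 ≤ s) :
    ∃ p : E, ‖p - o‖ ≤ s * Module.finrank ℝ E ∧ ∀ i, s ≤ ‖p - P i‖ := by
  classical
  let W : (ι → ℝ) → Submodule ℝ E := fun χ => ⨅ i, Module.End.eigenspace (T i) (χ i)
  have htop : ⨆ χ, W χ = ⊤ :=
    LinearMap.IsSymmetric.iSup_iInf_eq_top_of_commute hT (fun i j _ => hc i j)
  have horth := LinearMap.IsSymmetric.orthogonalFamily_iInf_eigenspaces hT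
  have hW : ∀ χ w, w ∈ W χ → ∀ i, T i w = χ i • w := by
    intro χ w hw i
    exact Module.End.mem_eigenspace_iff.1 ((Submodule.mem_iInf _).1 hw i)
  let Λ := {χ : ι → ℝ // W χ ≠ ⊥}
  have hex : ∀ χ : Λ, ∃ w : E, w ∈ W χ.1 ∧ ‖w‖ = 1 ∧ ∀ i, χ.1 i ≠ 0 → ⟪P i - o, w⟫_ℝ ≤ 0 := by
    intro χ
    obtain ⟨u, hu, hu0⟩ := (Submodule.ne_bot_iff _).1 χ.2
    have hun : 0 < ‖u‖ := norm_pos_iff.2 hu0
    let w : E := (‖u‖⁻¹ : ℝ) • u
    have hw : w ∈ W χ.1 := Submodule.smul_mem _ _ hu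
    have hwn : ‖w‖ = 1 := by
      simp only [w, norm_smul, norm_inv, norm_norm]; field_simp
    have heq : ∀ i j, χ.1 i ≠ 0 → χ.1 j ≠ 0 → ⟪P j - o, w⟫_ℝ = ⟪P i - o, w⟫_ℝ := by
      intro i j hi hj
      have h1 : ⟪T i (T j (P j - P i)), w⟫_ℝ = 0 := by rw [hP, inner_zero_left]
      rw [hT i, hW _ _ hw i, hT j, map_smul, hW _ _ hw j, inner_smul_right, inner_smul_right] at h1
      have h2 : ⟪P j - P i, w⟫_ℝ = 0 := by
        rcases mul_eq_zero.1 h1 with h | h
        · exact absurd h hi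
        · rcases mul_eq_zero.1 h with h | h
          · exact absurd h hj
          · exact h
      have h3 : P j - o = (P j - P i) + (P i - o) := by abel
      rw [h3, inner_add_left, h2, zero_add]
    by_cases hcase : ∀ i, χ.1 i ≠ 0 → ⟪P i - o, w⟫_ℝ ≤ 0
    · exact ⟨w, hw, hwn, hcase⟩
    · push Not at hcase
      obtain ⟨i, hi, hi2⟩ := hcase
      refine ⟨-w, Submodule.neg_mem _ hw, by rw [norm_neg, hwn], fun j hj => ?_⟩
      rw [inner_neg_right, heq i j hi hj]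
      linarith
  choose w hwW hwn hws using hex
  have hon : Orthonormal ℝ w := by
    refine ⟨hwn, fun χ χ' hne => ?_⟩
    have hne' : χ.1 ≠ χ'.1 := fun h => hne (Subtype.ext h)
    exact horth hne' ⟨w χ, hwW χ⟩ ⟨w χ', hwW χ'⟩
  have hli := hon.linearIndependent
  have : Finite Λ := hli.finite
  have : Fintype Λ := Fintype.ofFinite Λ
  have hcard : Fintype.card Λ ≤ Module.finrank ℝ E := hli.fintype_card_le_finrank
  refine ⟨o + s • ∑ χ, w χ, ?_, fun i => ?_⟩
  · rw [add_sub_cancel_left, norm_smul, Real.norm_of_nonneg hs]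
    apply mul_le_mul_of_nonneg_left _ hs
    calc ‖∑ χ, w χ‖ ≤ ∑ χ, ‖w χ‖ := norm_sum_le _ _
      _ = Fintype.card Λ := by simp [hwn]
      _ ≤ _ := by exact_mod_cast hcard
  · have hχ : ∃ χ : Λ, χ.1 i ≠ 0 := by
      by_contra hh
      push Not at hh
      apply h0 i
      have : ⊤ ≤ LinearMap.ker (T i) := by
        rw [← htop]
        refine iSup_le fun χ => ?_
        by_cases hb : W χ = ⊥
        · rw [hb]; exact bot_le
        · intro v hv
          have h5 : χ i = 0 := hh ⟨χ, hb⟩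
          rw [LinearMap.mem_ker, hW χ v hv i, h5, zero_smul]
      exact LinearMap.ker_eq_top.1 (top_le_iff.1 this)
    obtain ⟨χ, hχ⟩ := hχ
    have h1 : ⟪∑ χ', w χ', w χ⟫_ℝ = 1 := by
      rw [sum_inner, Finset.sum_eq_single χ]
      · rw [real_inner_self_eq_norm_sq, hwn]; norm_num
      · intro χ' _ hne
        exact hon.2 hne
      · intro h; exact absurd (Finset.mem_univ χ) h
    have h2 : ⟪o + s • ∑ χ', w χ' - P i, w χ⟫_ℝ = s - ⟪P i - o, w χ⟫_ℝ := by
      have : o + s • ∑ χ', w χ' - P i = s • ∑ χ', w χ' - (P i - o) := by abel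
      rw [this, inner_sub_left, real_inner_smul_left, h1, mul_one]
    have h3 := real_inner_le_norm (o + s • ∑ χ', w χ' - P i) (w χ)
    rw [hwn, mul_one, h2] at h3
    have h4 := hws χ i hχ
    linarith

end Pool.Agent.H177Z.Del
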