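import Pool.Agent.H177Z.DelLin

/-!
Local symmetries of Delone sets: small rotations at nearby points commute, so no cluster group of
radius `(8 d + 7) R` of a set with congruent clusters contains a small rotation.
-/

set_option autoImplicit false

namespace Pool.Agent.H177Z.Del

open scoped InnerProductSpace

variable {E : Type*} [NormedAddCommGroup E] [InnerProductSpace ℝ E]

/-- the linear part of an isometry -/
noncomputable def lin (g : E ≃ᵢ E) : E ≃ₗᵢ[ℝ] E := g.toRealLinearIsometryEquiv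

theorem lin_apply (g : E ≃ᵢ E) (v : E) : lin g v = g v - g 0 :=
  g.toRealLinearIsometryEquiv_apply v

theorem lin_sub (g : E ≃ᵢ E) (u v : E) : lin g (u - v) = g u - g v := by
  rw [map_sub, lin_apply, lin_apply]; abel

theorem lin_mul (g h : E ≃ᵢ E) : lin (g * h) = lin g * lin h := by
  apply LinearIsometryEquiv.ext
  intro v
  rw [mul_apply', lin_apply h, lin_sub, lin_apply]; rfl

theorem lin_one : lin (1 : E ≃ᵢ E) = 1 := by
  apply LinearIsometryEquiv.ext
  intro v
  rw [lin_apply]; simp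

theorem lin_inv (g : E ≃ᵢ E) : lin g⁻¹ = (lin g)⁻¹ := by
  apply eq_inv_of_mul_eq_one_left
  rw [← lin_mul, inv_mul_cancel, lin_one]

theorem eq_one_of_lin {g : E ≃ᵢ E} {x : E} (hx : g x = x) (h : lin g = 1) : g = 1 := by
  apply IsometryEquiv.ext
  intro z
  have := lin_sub g z x
  rw [h, hx] at this
  change z - x = g z - x at this
  change g z = z
  exact (sub_left_inj.1 this).symm

/-- `g` respects `X` on the closed ball of radius `t` about `x`. -/
def Loc (X : Set E) (t : ℝ) (x : E) (g : E ≃ᵢ E) : Prop :=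
  ∀ z, dist z x ≤ t → (z ∈ X ↔ g z ∈ X)

omit [InnerProductSpace ℝ E] in
theorem Loc.mono {X : Set E} {t t' : ℝ} {x x' : E} {g : E ≃ᵢ E} (h : Loc X t x g)
    (ht : t' + dist x' x ≤ t) : Loc X t' x' g :=
  fun z hz => h z (by linarith [dist_triangle z x' x])

omit [InnerProductSpace ℝ E] in
theorem Loc.mono' {X : Set E} {t t' : ℝ} {x : E} {g : E ≃ᵢ E} (h : Loc X t x g)
    (ht : t' ≤ t) : Loc X t' x g :=
  h.mono (by simpa using ht)

omit [InnerProductSpace ℝ E] in
theorem Loc.inv {X : Set E} {t : ℝ} {x : E} {g : E ≃ᵢ E} (h : Loc X t x g) :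
    Loc X t (g x) g⁻¹ := by
  intro z hz
  have h1 : dist (g⁻¹ z) x ≤ t := by
    rw [← g.dist_eq, IsometryEquiv.apply_inv_self]; exact hz
  have := h _ h1
  rw [IsometryEquiv.apply_inv_self] at this
  exact this.symm

omit [InnerProductSpace ℝ E] in
theorem Loc.mul {X : Set E} {t : ℝ} {x : E} {g h : E ≃ᵢ E} (hh : Loc X t (g x) h)
    (hg : Loc X t x g) : Loc X t x (h * g) := by
  intro z hz
  rw [hg z hz, hh (g z) (by rw [g.dist_eq]; exact hz)]
  rfl

omit [InnerProductSpace ℝ E] in
theorem Loc.one (X : Set E) (t : ℝ) (x : E) : Loc X t x 1 := fun _ _ => Iff.rfl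

/-- an isometry fixing the points of `X` within `3 R` of a point of `X` is the identity -/
theorem eq_one_of_fix {X : Set E} {R : ℝ} (hR : 0 < R) (hcov : ∀ p : E, ∃ z ∈ X, dist p z ≤ R)
    {x : E} (hx : x ∈ X) {c : E ≃ᵢ E} (hc : ∀ z ∈ X, dist z x ≤ 3 * R → c z = z) : c = 1 := by
  have hcx : c x = x := hc x hx (by simp; positivity)
  apply eq_one_of_lin hcx
  by_contra hne
  have : ∃ v, lin c v ≠ v := by
    by_contra hh
    push Not at hh
    exact hne (LinearIsometryEquiv.ext hh)
  obtain ⟨v, hv⟩ := this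
  set n := lin c v - v with hn
  have hn0 : 0 < ‖n‖ := norm_pos_iff.2 (sub_ne_zero.2 hv)
  obtain ⟨z, hz, hpz⟩ := hcov (x + (2 * R / ‖n‖) • n)
  have h1 : ‖(2 * R / ‖n‖) • n‖ = 2 * R := by
    rw [norm_smul, Real.norm_of_nonneg (by positivity)]; field_simp
  have h2 : dist z x ≤ 3 * R := by
    have := dist_triangle z (x + (2 * R / ‖n‖) • n) x
    rw [dist_comm z (x + _), dist_eq_norm (x + _) x, add_sub_cancel_left, h1] at this
    linarith
  have h3 : lin c (z - x) = z - x := by rw [lin_sub, hc z hz h2, hcx]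
  have h4 : ⟪n, z - x⟫_ℝ = 0 := inner_sub_fixed _ _ _ h3
  have h5 : ⟪n, x + (2 * R / ‖n‖) • n - z⟫_ℝ = 2 * R * ‖n‖ := by
    have : x + (2 * R / ‖n‖) • n - z = (2 * R / ‖n‖) • n - (z - x) := by abel
    rw [this, inner_sub_right, h4, inner_smul_right, real_inner_self_eq_norm_sq]
    field_simp
    ring
  have h6 := real_inner_le_norm n (x + (2 * R / ‖n‖) • n - z)
  rw [dist_eq_norm] at hpz
  rw [h5] at h6
  nlinarith

variable [FiniteDimensional ℝ E]

/-- the affine form of Frobenius' lemma -/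
theorem frobenius_aff {b : ℝ} {g c : E ≃ᵢ E} {x : E} (hx : g x = x) (hb : b < 1)
    (hc : SmallL b (lin c)) (h : Commute g (c⁻¹ * g * c * g⁻¹)) : Commute g c := by
  set c' := c⁻¹ * g * c * g⁻¹ with hc'
  have hl : lin c' = (lin c)⁻¹ * lin g * lin c * (lin g)⁻¹ := by
    rw [hc', lin_mul, lin_mul, lin_mul, lin_inv, lin_inv]
  have h1 : Commute (lin g) (lin c') := by
    have := congrArg lin h.eq
    rw [lin_mul g c', lin_mul c' g] at this
    exact this
  rw [hl] at h1
  have h2 : Commute (lin g) (lin c) := frobenius hb hc h1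
  have h3 : lin c' = 1 := by
    rw [hl, mul_assoc (lin c)⁻¹, h2.eq]; group
  have hgi : g⁻¹ x = x := by
    conv_lhs => rw [← hx]
    exact g.inv_apply_self x
  have h4 : lin g (c' x - x) = c' x - x := by
    rw [lin_sub, hx]
    have := congrArg (fun f : E ≃ᵢ E => f x) h.eq
    simp only [IsometryEquiv.mul_apply, hx] at this
    rw [this]
  have h5 : c' x - x = lin g ((lin c)⁻¹ (c x - x)) - (lin c)⁻¹ (c x - x) := by
    have e1 : c' x = c⁻¹ (g (c x)) := by
      rw [hc']; simp only [IsometryEquiv.mul_apply, hgi]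
    have e2 : c' x - x = (lin c)⁻¹ (g (c x) - c x) := by
      rw [← lin_inv, lin_sub, e1, IsometryEquiv.inv_apply_self]
    have e3 : g (c x) - c x = lin g (c x - x) - (c x - x) := by
      rw [lin_sub, hx]; abel
    have e4 := congrArg (fun F : E ≃ₗᵢ[ℝ] E => F (c x - x)) h2.inv_right.eq
    simp only [mul_apply'] at e4
    rw [e2, e3, map_sub, e4]
  have h6 : ⟪c' x - x, c' x - x⟫_ℝ = 0 := by
    conv_lhs => enter [2]; rw [h5]
    exact inner_sub_fixed _ _ _ h4
  have h7 : c' x = x := sub_eq_zero.1 (inner_self_eq_zero.1 h6)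
  have h8 : c' = 1 := eq_one_of_lin h7 h3
  have h9 : g * c = c * c' * g := by rw [hc']; group
  rw [h8, mul_one] at h9
  exact h9

/-- A small rotation `g` of the cluster of `x` commutes with every small local symmetry. -/
theorem commute_of_small {X : Set E} {R r t e : ℝ} (hR : 0 < R)
    (hcov : ∀ p : E, ∃ z ∈ X, dist p z ≤ R)
    (hsep : ∀ y ∈ X, ∀ z ∈ X, y ≠ z → r ≤ dist y z)
    {x : E} (hx : x ∈ X) {g : E ≃ᵢ E} (hgx : g x = x) (hg : Loc X t x g)
    (he : 1 / 4 ≤ e) (he2 : e < 1 / 2) (hge : SmallL e (lin g)) (k : ℕ) :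
    ∀ (c : E ≃ᵢ E) (a b : ℝ), 0 ≤ a → 0 ≤ b → b < 1 → 3 * R + 2 * a ≤ t → SmallL b (lin c) →
      dist (c x) x ≤ a → Loc X (3 * R + a) x c → (2 * e) ^ k * (a + 3 * R * b) < r →
      Commute g c := by
  induction k with
  | zero =>
    intro c a b ha hb _ _ hc hcx hloc hr
    have : c = 1 := by
      apply eq_one_of_fix hR hcov hx
      intro z hz hzx
      by_contra hne
      have h1 : c z ∈ X := (hloc z (by linarith)).1 hz
      have h2 := hsep _ h1 _ hz hne
      have h3 : c z - z = (lin c (z - x) - (z - x)) + (c x - x) := by rw [lin_sub]; abel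
      have h4 := hc (z - x)
      rw [dist_eq_norm] at h2 hcx hzx
      have h5 : ‖c z - z‖ ≤ ‖lin c (z - x) - (z - x)‖ + ‖c x - x‖ := by
        rw [h3]; exact norm_add_le _ _
      have h6 : b * ‖z - x‖ ≤ b * (3 * R) := mul_le_mul_of_nonneg_left hzx hb
      simp only [pow_zero, one_mul] at hr
      linarith
    rw [this]; exact Commute.one_right g
  | succ k ih =>
    intro c a b ha hb hb1 hat hc hcx hloc hr
    apply frobenius_aff hgx hb1 hc
    have hgi : g⁻¹ x = x := by
      conv_lhs => rw [← hgx]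
      exact g.inv_apply_self x
    have hd : dist (g (c x)) (c x) ≤ a / 2 := by
      have e3 : g (c x) - c x = lin g (c x - x) - (c x - x) := by
        rw [lin_sub, hgx]; abel
      rw [dist_eq_norm, e3]
      refine (hge _).trans ?_
      rw [dist_eq_norm] at hcx
      nlinarith [norm_nonneg (c x - x)]
    have hx' : (c⁻¹ * g * c * g⁻¹) x = c⁻¹ (g (c x)) := by
      simp only [IsometryEquiv.mul_apply, hgi]
    apply ih _ (a / 2) (2 * e * b) (by positivity) (by positivity) (by nlinarith) (by linarith)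
    · rw [lin_mul, lin_mul, lin_mul, lin_inv, lin_inv]
      exact SmallL.comm (by linarith) hb hge hc
    · rw [hx', ← c.dist_eq, IsometryEquiv.apply_inv_self]; exact hd
    · have l1 : Loc X (3 * R + a / 2) x g⁻¹ := by
        have := hg.inv
        rw [hgx] at this
        exact this.mono' (by linarith)
      have l2 : Loc X (3 * R + a / 2) (g⁻¹ x) c := by
        rw [hgi]; exact hloc.mono' (by linarith)
      have l3 : Loc X (3 * R + a / 2) ((c * g⁻¹) x) g := by
        rw [IsometryEquiv.mul_apply, hgi]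
        exact hg.mono (by linarith)
      have l4 : Loc X (3 * R + a / 2) ((g * (c * g⁻¹)) x) c⁻¹ := by
        rw [IsometryEquiv.mul_apply, IsometryEquiv.mul_apply, hgi]
        exact hloc.inv.mono (by linarith)
      have := l4.mul (l3.mul (l2.mul l1))
      simpa only [mul_assoc] using this
    · refine lt_of_le_of_lt ?_ hr
      rw [pow_succ, mul_assoc ((2 * e) ^ k)]
      apply mul_le_mul_of_nonneg_left _ (by positivity)
      nlinarith

/-- No small rotations in cluster groups. -/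
theorem no_small {X : Set E} {R r t e : ℝ} (hR : 0 < R) (hr : 0 < r)
    (hcov : ∀ p : E, ∃ z ∈ X, dist p z ≤ R)
    (hsep : ∀ y ∈ X, ∀ z ∈ X, y ≠ z → r ≤ dist y z)
    (ht : (8 * Module.finrank ℝ E + 7) * R ≤ t)
    (hiso : ∀ x ∈ X, ∀ y ∈ X, ∃ f : E ≃ᵢ E, f x = y ∧ Loc X t x f)
    {x : E} (hx : x ∈ X) {g : E ≃ᵢ E} (hgx : g x = x) (hg : Loc X t x g)
    (he2 : e < 1 / 2) (hge : SmallL e (lin g)) : g = 1 := by
  by_contra hne
  set e' := max e (1 / 4) with he'
  have h1 : 1 / 4 ≤ e' := le_max_right _ _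
  have h2 : e' < 1 / 2 := max_lt he2 (by norm_num)
  have h3 : SmallL e' (lin g) := hge.mono (le_max_left _ _)
  set D : ℝ := ((Module.finrank ℝ E : ℕ) : ℝ) with hD
  have hD0 : 0 ≤ D := Nat.cast_nonneg _
  let ι := {y : E // y ∈ X ∧ dist y x ≤ (2 * D + 1) * R}
  have hall : ∀ y : ι, ∃ h : E ≃ᵢ E, h y.1 = y.1 ∧ Loc X t y.1 h ∧ SmallL e' (lin h) ∧ h ≠ 1 := by
    intro y
    obtain ⟨f, hf, hl⟩ := hiso x hx y.1 y.2.1
    have hfi : f⁻¹ y.1 = x := by rw [← hf]; exact f.inv_apply_self x
    refine ⟨f * g * f⁻¹, ?_, ?_, ?_, ?_⟩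
    · simp only [IsometryEquiv.mul_apply, hfi, hgx, hf]
    · have l1 : Loc X t y.1 f⁻¹ := by rw [← hf]; exact hl.inv
      have l2 : Loc X t (f⁻¹ y.1) g := by rw [hfi]; exact hg
      have l3 : Loc X t ((g * f⁻¹) y.1) f := by
        rw [IsometryEquiv.mul_apply, hfi, hgx]; exact hl
      simpa only [mul_assoc] using l3.mul (l2.mul l1)
    · rw [lin_mul, lin_mul, lin_inv]; exact h3.conj _
    · intro h
      apply hne
      have : g = f⁻¹ * (f * g * f⁻¹) * f := by group
      rw [this, h]; group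
  choose h hfix hloc hsm hne1 using hall
  have hcomm : ∀ y z : ι, Commute (h y) (h z) := by
    intro y z
    have hyz : dist y.1 z.1 ≤ (4 * D + 2) * R := by
      have := dist_triangle_right y.1 z.1 x
      linarith [y.2.2, z.2.2]
    obtain ⟨k, hk⟩ : ∃ k : ℕ, (2 * e') ^ k < r / ((2 * D + 1) * R + 3 * R * e') :=
      exists_pow_lt_of_lt_one (by positivity) (by linarith)
    rw [lt_div_iff₀ (by positivity)] at hk
    apply commute_of_small hR hcov hsep y.2.1 (hfix y) (hloc y) h1 h2 (hsm y) k (h z)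
      ((2 * D + 1) * R) e' (by positivity) (by linarith) (by linarith) (by nlinarith) (hsm z) ?_
      ((hloc z).mono (by nlinarith)) hk
    have e3 : h z y.1 - y.1 = lin (h z) (y.1 - z.1) - (y.1 - z.1) := by
      rw [lin_sub, hfix]; abel
    rw [dist_eq_norm, e3]
    refine (hsm z _).trans ?_
    rw [dist_eq_norm] at hyz
    nlinarith [norm_nonneg (y.1 - z.1)]
  have hlc : ∀ y z : ι, ∀ v, lin (h y) (lin (h z) v) = lin (h z) (lin (h y) v) := by
    intro y z v
    have := congrArg lin (hcomm y z).eq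
    rw [lin_mul, lin_mul] at this
    exact congrArg (fun F : E ≃ₗᵢ[ℝ] E => F v) this
  let M : ι → Module.End ℝ E := fun y => (lin (h y)).toLinearEquiv.toLinearMap - 1
  let M' : ι → Module.End ℝ E := fun y => ((lin (h y))⁻¹).toLinearEquiv.toLinearMap - 1
  have hM : ∀ y v, M y v = lin (h y) v - v := fun _ _ => rfl
  have hM' : ∀ y v, M' y v = (lin (h y))⁻¹ v - v := fun _ _ => rfl
  have hadj : ∀ y u v, ⟪M' y u, v⟫_ℝ = ⟪u, M y v⟫_ℝ := by
    intro y u v
    rw [hM, hM', inner_sub_left, inner_sub_right, inner_inv_left]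
  have cl : ∀ y z : ι, Commute (lin (h y)) (lin (h z)) := fun y z =>
    LinearIsometryEquiv.ext (hlc y z)
  have toE : ∀ A B : E ≃ₗᵢ[ℝ] E, Commute A B →
      Commute ((A.toLinearEquiv.toLinearMap : Module.End ℝ E) - 1)
        ((B.toLinearEquiv.toLinearMap : Module.End ℝ E) - 1) := by
    intro A B hAB
    have : Commute (A.toLinearEquiv.toLinearMap : Module.End ℝ E)
        (B.toLinearEquiv.toLinearMap : Module.End ℝ E) := by
      apply LinearMap.ext
      intro v
      exact congrArg (fun F : E ≃ₗᵢ[ℝ] E => F v) hAB.eq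
    exact ((this.sub_left (Commute.one_left _)).sub_right (Commute.one_right _))
  have c1 : ∀ y z, Commute (M y) (M z) := fun y z => toE _ _ (cl y z)
  have c2 : ∀ y z, Commute (M y) (M' z) := fun y z => toE _ _ (cl y z).inv_right
  have c3 : ∀ y z, Commute (M' y) (M' z) := fun y z => toE _ _ (cl y z).inv_left.inv_right
  have q1 : ∀ y, (M' y * M y).IsSymmetric := by
    intro y u v
    change ⟪M' y (M y u), v⟫_ℝ = ⟪u, M' y (M y v)⟫_ℝ
    rw [hadj, real_inner_comm, ← hadj, real_inner_comm]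
  have q2 : ∀ y z, Commute (M' y * M y) (M' z * M z) := by
    intro y z
    exact ((c3 y z).mul_right (c2 z y).symm).mul_left ((c2 y z).mul_right (c1 y z))
  have q3 : ∀ y, M' y * M y ≠ 0 := by
    intro y hy
    apply hne1 y
    apply eq_one_of_lin (hfix y)
    apply LinearIsometryEquiv.ext
    intro v
    have e1 : ⟪(M' y * M y) v, v⟫_ℝ = 0 := by rw [hy]; simp
    change ⟪M' y (M y v), v⟫_ℝ = 0 at e1
    rw [hadj, inner_self_eq_zero, hM] at e1
    exact sub_eq_zero.1 e1
  have q4 : ∀ y z : ι, (M' y * M y) ((M' z * M z) (z.1 - y.1)) = 0 := by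
    intro y z
    have e1 : M y (M z (z.1 - y.1)) = 0 := by
      have e2 := congrArg (fun f : E ≃ᵢ E => f y.1) (hcomm y z).eq
      simp only [IsometryEquiv.mul_apply, hfix] at e2
      have e3 : M z (z.1 - y.1) = y.1 - h z y.1 := by rw [hM, lin_sub, hfix]; abel
      rw [e3, hM, lin_sub, hfix, e2, sub_self]
    have e4 : M' y * M y * (M' z * M z) = M' y * M' z * (M y * M z) := by
      rw [mul_assoc, ← mul_assoc (M y), (c2 y z).eq]; simp only [mul_assoc]
    change (M' y * M y * (M' z * M z)) (z.1 - y.1) = 0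
    rw [e4]
    change (M' y * M' z) (M y (M z (z.1 - y.1))) = 0
    rw [e1, map_zero]
  obtain ⟨p, hp, hfar⟩ := hole (fun y : ι => y.1) (fun y => M' y * M y) q1 q2 q3 q4 x (2 * R)
    (by positivity)
  obtain ⟨z, hz, hpz⟩ := hcov p
  have hzx : dist z x ≤ (2 * D + 1) * R := by
    have := dist_triangle z p x
    rw [dist_comm z p, dist_eq_norm p x] at this
    rw [← hD] at hp
    nlinarith
  have := hfar ⟨z, hz, hzx⟩
  rw [← dist_eq_norm] at this
  change 2 * R ≤ dist p z at this
  linarith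

end Pool.Agent.H177Z.Del
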