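import Pool.Agent.H177Z.DelLoc

/-!
The regularity radius of Delone sets in dimension `d` is at most `(9 d ^ 2 + 8 d + 10) R`.
-/

set_option autoImplicit false

namespace Pool.Agent.H177Z.Del

variable {E : Type*} [NormedAddCommGroup E] [InnerProductSpace ℝ E]

/-- the cluster group -/
def Stab (X : Set E) (t : ℝ) (x : E) : Subgroup (E ≃ᵢ E) where
  carrier := {g | g x = x ∧ Loc X t x g}
  one_mem' := ⟨rfl, Loc.one X t x⟩
  mul_mem' := by
    rintro g h ⟨hg, hg2⟩ ⟨hh, hh2⟩
    refine ⟨by rw [IsometryEquiv.mul_apply, hh, hg], Loc.mul ?_ hh2⟩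
    rw [hh]; exact hg2
  inv_mem' := by
    rintro g ⟨hg, hg2⟩
    refine ⟨?_, ?_⟩
    · conv_lhs => rw [← hg]
      exact g.inv_apply_self x
    · have := hg2.inv
      rwa [hg] at this

omit [InnerProductSpace ℝ E] in
theorem Stab.anti {X : Set E} {t t' : ℝ} {x : E} (h : t' ≤ t) : Stab X t x ≤ Stab X t' x :=
  fun _ hg => ⟨hg.1, hg.2.mono' h⟩

/-- the local theorem -/
theorem local_theorem {X : Set E} {R t : ℝ} (hR : 0 < R) (ht : 0 ≤ t)
    (hcov : ∀ p : E, ∃ z ∈ X, dist p z ≤ R)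
    (hiso : ∀ x ∈ X, ∀ y ∈ X, ∃ f : E ≃ᵢ E, f x = y ∧ Loc X (t + 3 * R) x f)
    {o : E} (ho : o ∈ X) (hst : Stab X t o ≤ Stab X (t + 3 * R) o) :
    ∀ x ∈ X, ∀ y ∈ X, ∃ f : E ≃ᵢ E, f x = y ∧ f '' X = X := by
  have hall : ∀ y ∈ X, ∀ g : E ≃ᵢ E, g y = y → Loc X t y g → Loc X (t + 3 * R) y g := by
    intro y hy g hgy hg
    obtain ⟨f, hf, hl⟩ := hiso o ho y hy
    have hfi : f⁻¹ y = o := by rw [← hf]; exact f.inv_apply_self o
    have hli : Loc X (t + 3 * R) y f⁻¹ := by rw [← hf]; exact hl.inv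
    have h1 : f⁻¹ * g * f ∈ Stab X t o := by
      refine ⟨by simp only [IsometryEquiv.mul_apply, hf, hgy, hfi], ?_⟩
      have l1 : Loc X t o f := hl.mono' (by linarith)
      have l2 : Loc X t (f o) g := by rw [hf]; exact hg
      have l3 : Loc X t ((g * f) o) f⁻¹ := by
        rw [IsometryEquiv.mul_apply, hf, hgy]; exact hli.mono' (by linarith)
      simpa only [mul_assoc] using l3.mul (l2.mul l1)
    obtain ⟨h2, h3⟩ := hst h1
    have l2 : Loc X (t + 3 * R) (f⁻¹ y) (f⁻¹ * g * f) := by rw [hfi]; exact h3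
    have l3 : Loc X (t + 3 * R) ((f⁻¹ * g * f * f⁻¹) y) f := by
      rw [IsometryEquiv.mul_apply, hfi, h2]; exact hl
    have := l3.mul (l2.mul hli)
    have e : f * (f⁻¹ * g * f * f⁻¹) = g := by group
    rwa [e] at this
  intro x hx y hy
  obtain ⟨f, hf, hl⟩ := hiso x hx y hy
  have hstep : ∀ u ∈ X, ∀ z ∈ X, dist z u ≤ 3 * R → Loc X (t + 3 * R) u f →
      Loc X (t + 3 * R) z f := by
    intro u _ z hz hzu hu'
    have hfz : f z ∈ X := (hu' z (by linarith)).1 hz
    have l1 : Loc X t z f := hu'.mono (by linarith)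
    obtain ⟨h, hh, hl2⟩ := hiso z hz (f z) hfz
    have hhi : h⁻¹ (f z) = z := by rw [← hh]; exact h.inv_apply_self z
    have l2 : Loc X t (f z) h⁻¹ := by
      have := hl2.inv
      rw [hh] at this
      exact this.mono' (by linarith)
    have l3 := hall z hz (h⁻¹ * f) hhi (l2.mul l1)
    have l4 : Loc X (t + 3 * R) ((h⁻¹ * f) z) h := by
      rw [IsometryEquiv.mul_apply, hhi]; exact hl2
    have := l4.mul l3
    have e : h * (h⁻¹ * f) = f := by group
    rwa [e] at this
  have hind : ∀ n : ℕ, ∀ z ∈ X, dist z x ≤ n * R → Loc X (t + 3 * R) z f := by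
    intro n
    induction n with
    | zero =>
      intro z hz hzx
      exact hstep x hx z hz (by simp only [Nat.cast_zero, zero_mul] at hzx; linarith) hl
    | succ n ih =>
      intro z hz hzx
      by_cases hc : dist z x ≤ 3 * R
      · exact hstep x hx z hz hc hl
      · push Not at hc
        have hd : 0 < ‖x - z‖ := by rw [← dist_eq_norm, dist_comm]; linarith
        have hd2 : ‖x - z‖ = dist z x := by rw [← dist_eq_norm, dist_comm]
        obtain ⟨u, hu, hpu⟩ := hcov (z + (2 * R / ‖x - z‖) • (x - z))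
        have h1 : dist (z + (2 * R / ‖x - z‖) • (x - z)) z = 2 * R := by
          rw [dist_eq_norm, add_sub_cancel_left, norm_smul, Real.norm_of_nonneg (by positivity)]
          field_simp
        have h2 : dist (z + (2 * R / ‖x - z‖) • (x - z)) x = ‖x - z‖ - 2 * R := by
          have : z + (2 * R / ‖x - z‖) • (x - z) - x = -((1 - 2 * R / ‖x - z‖) • (x - z)) := by
            rw [sub_smul, one_smul]; abel
          rw [dist_eq_norm, this, norm_neg, norm_smul, Real.norm_of_nonneg]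
          · field_simp
          · rw [sub_nonneg, div_le_one hd]; linarith
        have h3 := dist_triangle_left u x (z + (2 * R / ‖x - z‖) • (x - z))
        have h4 := dist_triangle_left z u (z + (2 * R / ‖x - z‖) • (x - z))
        refine hstep u hu z hz (by linarith) (ih u hu ?_)
        push_cast at hzx
        linarith
  have hiff : ∀ z, z ∈ X ↔ f z ∈ X := by
    intro z
    obtain ⟨u, hu, hzu⟩ := hcov z
    obtain ⟨n, hn⟩ := exists_nat_ge (dist u x / R)
    rw [div_le_iff₀ hR] at hn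
    exact hind n u hu hn z (by linarith)
  refine ⟨f, hf, ?_⟩
  ext z
  constructor
  · rintro ⟨u, hu, rfl⟩
    exact (hiff u).1 hu
  · intro hz
    refine ⟨f⁻¹ z, (hiff _).2 ?_, f.apply_inv_self z⟩
    rw [f.apply_inv_self]; exact hz

/-- a decreasing chain of subgroups of a small finite group stabilizes early -/
theorem chain {G : Type*} [Group G] (H : ℕ → Subgroup G) (hH : ∀ k, H (k + 1) ≤ H k)
    (hfin : Finite (H 0)) (m : ℕ) (hm : Nat.card (H 0) < 2 ^ m) :
    ∃ k < m, H k ≤ H (k + 1) := by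
  by_contra hh
  push Not at hh
  have hle : ∀ k, H k ≤ H 0 := by
    intro k
    induction k with
    | zero => exact le_rfl
    | succ k ih => exact (hH k).trans ih
  have hf : ∀ k, Finite (H k) := fun k =>
    Finite.of_injective _ (Subgroup.inclusion_injective (hle k))
  have key : ∀ k ≤ m, 2 ^ k * Nat.card (H k) ≤ Nat.card (H 0) := by
    intro k
    induction k with
    | zero => intro _; simp
    | succ k ih =>
      intro hk
      have h1 := ih (by omega)
      obtain ⟨q, hq⟩ := Subgroup.card_dvd_of_le (hH k)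
      have := hf k
      have := hf (k + 1)
      have hpos : 0 < Nat.card (H k) := Nat.card_pos
      have hq1 : q ≠ 1 := by
        rintro rfl
        apply hh k (by omega)
        exact (Subgroup.eq_of_le_of_card_ge (hH k) (by omega)).ge
      have hq0 : q ≠ 0 := by rintro rfl; omega
      have hq2 : 2 ≤ q := by omega
      calc 2 ^ (k + 1) * Nat.card (H (k + 1)) = 2 ^ k * (Nat.card (H (k + 1)) * 2) := by ring
        _ ≤ 2 ^ k * (Nat.card (H (k + 1)) * q) := by gcongr
        _ ≤ _ := by rw [← hq]; exact h1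
  have h1 := key m le_rfl
  have := hf m
  have hpos : 0 < Nat.card (H m) := Nat.card_pos
  nlinarith

variable [FiniteDimensional ℝ E]

/-- a group of isometries fixing a point without small rotations has at most `5 ^ (d ^ 2)`
elements -/
theorem card_le {H : Subgroup (E ≃ᵢ E)}
    (h : ∀ g ∈ H, ∀ e < (1 / 2 : ℝ), SmallL e (lin g) → g = 1) :
    Finite H ∧ Nat.card H ≤ 5 ^ (Module.finrank ℝ E * Module.finrank ℝ E) := by
  classical
  let φ : H → (E →L[ℝ] E) := fun g => (2 : ℝ) • (lin g.1).toContinuousLinearEquiv.toContinuousLinearMap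
  have hφ : ∀ g v, φ g v = (2 : ℝ) • lin g.1 v := fun _ _ => rfl
  have hn : ∀ g, ‖φ g‖ ≤ 2 := by
    intro g
    apply ContinuousLinearMap.opNorm_le_bound _ (by norm_num)
    intro v
    rw [hφ, norm_smul, (lin g.1).norm_map]; simp
  have hsep : ∀ g g', g ≠ g' → 1 ≤ ‖φ g - φ g'‖ := by
    intro g g' hne
    by_contra hlt
    push Not at hlt
    apply hne
    have h1 := h (g'.1⁻¹ * g.1) (H.mul_mem (H.inv_mem g'.2) g.2) (‖φ g - φ g'‖ / 2) (by linarith) ?_
    · exact Subtype.ext (inv_mul_eq_one.1 h1).symm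
    · intro v
      rw [lin_mul, lin_inv, ← (lin g'.1).norm_map, map_sub, mul_apply', apply_inv_self']
      have h2 := (φ g - φ g').le_opNorm v
      rw [ContinuousLinearMap.sub_apply, hφ, hφ, ← smul_sub, norm_smul] at h2
      simp only [Real.norm_ofNat] at h2
      linarith
  have hinj : Function.Injective φ := by
    intro g g' hgg
    by_contra hne
    have := hsep g g' hne
    rw [hgg, sub_self, norm_zero] at this
    linarith
  have hrank : Module.finrank ℝ (E →L[ℝ] E) = Module.finrank ℝ E * Module.finrank ℝ E := by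
    rw [← (LinearMap.toContinuousLinearMap (𝕜 := ℝ) (E := E) (F' := E)).finrank_eq,
      Module.finrank_linearMap]
  have hb : ∀ s : Finset H, s.card ≤ 5 ^ (Module.finrank ℝ E * Module.finrank ℝ E) := by
    intro s
    rw [← hrank, ← Finset.card_image_of_injective s hinj]
    apply Besicovitch.card_le_of_separated
    · intro c hc
      obtain ⟨g, _, rfl⟩ := Finset.mem_image.1 hc
      exact hn g
    · intro c hc d hd hcd
      obtain ⟨g, _, rfl⟩ := Finset.mem_image.1 hc
      obtain ⟨g', _, rfl⟩ := Finset.mem_image.1 hd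
      exact hsep g g' (fun hh => hcd (by rw [hh]))
  have hfin : Finite H := by
    by_contra hinf
    rw [not_finite_iff_infinite] at hinf
    obtain ⟨s, hs⟩ := Infinite.exists_subset_card_eq H
      (5 ^ (Module.finrank ℝ E * Module.finrank ℝ E) + 1)
    have := hb s
    omega
  refine ⟨hfin, ?_⟩
  have := Fintype.ofFinite H
  rw [Nat.card_eq_fintype_card]
  exact hb Finset.univ

/-- The regularity radius in dimension `d` is at most `(9 d ^ 2 + 8 d + 7) R`. -/
theorem regular {X : Set E} {R r ρ : ℝ} (hR : 0 < R) (hr : 0 < r)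
    (hcov : ∀ p : E, ∃ z ∈ X, dist p z ≤ R)
    (hsep : ∀ y ∈ X, ∀ z ∈ X, y ≠ z → r ≤ dist y z)
    (hρ : (9 * (Module.finrank ℝ E : ℝ) ^ 2 + 8 * Module.finrank ℝ E + 10) * R ≤ ρ)
    (hiso : ∀ x ∈ X, ∀ y ∈ X, ∃ f : E ≃ᵢ E, f x = y ∧ Loc X ρ x f) :
    ∀ x ∈ X, ∀ y ∈ X, ∃ f : E ≃ᵢ E, f x = y ∧ f '' X = X := by
  obtain ⟨o, ho, _⟩ := hcov 0
  set d := Module.finrank ℝ E with hd
  have hd0 : (0 : ℝ) ≤ d := Nat.cast_nonneg _
  have hiso' : ∀ t ≤ ρ, ∀ x ∈ X, ∀ y ∈ X, ∃ f : E ≃ᵢ E, f x = y ∧ Loc X t x f := by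
    intro t ht x hx y hy
    obtain ⟨f, h1, h2⟩ := hiso x hx y hy
    exact ⟨f, h1, h2.mono' ht⟩
  let H : ℕ → Subgroup (E ≃ᵢ E) := fun k => Stab X ((8 * d + 7) * R + k * (3 * R)) o
  have hH : ∀ k, H (k + 1) ≤ H k := fun k => Stab.anti (by push_cast; linarith)
  obtain ⟨hfin, hcard⟩ : Finite (H 0) ∧ Nat.card (H 0) ≤ 5 ^ (d * d) := by
    apply card_le
    intro g hg e he hge
    refine no_small hR hr hcov hsep (t := (8 * d + 7) * R + (0 : ℕ) * (3 * R)) (by simp [hd])
      (hiso' _ ?_) ho hg.1 hg.2 he hge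
    simp only [Nat.cast_zero, zero_mul, add_zero]
    nlinarith [sq_nonneg (d : ℝ)]
  obtain ⟨k, hk, hst⟩ := chain H hH hfin (3 * (d * d) + 1) (by
    refine lt_of_le_of_lt hcard ?_
    rw [pow_succ, pow_mul]
    have : 5 ^ (d * d) ≤ (2 ^ 3) ^ (d * d) := Nat.pow_le_pow_left (by norm_num) _
    have h2 : 0 < (2 ^ 3) ^ (d * d) := by positivity
    rw [← pow_mul, mul_comm d d] at *
    omega)
  have hk' : (k : ℝ) ≤ 3 * d ^ 2 := by
    have : k ≤ 3 * (d * d) := by omega
    have h2 : (k : ℝ) ≤ ((3 * (d * d) : ℕ) : ℝ) := by exact_mod_cast this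
    push_cast at h2
    nlinarith
  refine local_theorem hR (t := (8 * d + 7) * R + k * (3 * R)) (by positivity) hcov
    (hiso' _ (by nlinarith)) ho ?_
  have e : (8 * (d : ℝ) + 7) * R + k * (3 * R) + 3 * R
      = (8 * d + 7) * R + ((k + 1 : ℕ) : ℝ) * (3 * R) := by push_cast; ring
  rw [e]
  exact hst

omit [InnerProductSpace ℝ E] [FiniteDimensional ℝ E] in
theorem loc_of_image {X : Set E} {ρ : ℝ} {x y : E} {g : E ≃ᵢ E} (hx : g x = y)
    (h : g '' (X ∩ Metric.closedBall x ρ) = X ∩ Metric.closedBall y ρ) : Loc X ρ x g := by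
  intro z hz
  constructor
  · intro hzX
    have : g z ∈ g '' (X ∩ Metric.closedBall x ρ) := ⟨z, ⟨hzX, hz⟩, rfl⟩
    rw [h] at this
    exact this.1
  · intro hzX
    have : g z ∈ X ∩ Metric.closedBall y ρ := by
      refine ⟨hzX, ?_⟩
      rw [Metric.mem_closedBall, ← hx, g.dist_eq]; exact hz
    rw [← h] at this
    obtain ⟨w, hw, hwz⟩ := this
    rw [← g.injective hwz]
    exact hw.1

end Pool.Agent.H177Z.Del
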