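import Pool.Agent.H505Z.NP.Defs

/-! `p`-adic dynamics in a residue disc. -/

set_option autoImplicit false

namespace Pool.Agent.H177Z.NPDyn

open MvPolynomial

section val

/-- A `p`-adic absolute value adapted to a finite set. -/
theorem exists_val (k : Type) [Field k] [CharZero k] [Algebra.IsAlgebraic ℚ k] (C : Finset k) :
    ∃ (v : AbsoluteValue k ℝ) (p : ℕ) (n : ℤ), p.Prime ∧ IsNonarchimedean v ∧
      v p = (p : ℝ)⁻¹ ∧ (∀ m : ℕ, ¬ p ∣ m → v m = 1) ∧ IsCoprime n (p : ℤ) ∧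
      (∀ c ∈ C, IsIntegral ℤ (n • c)) ∧ ∀ c ∈ C, v c ≤ 1 := by
  have halg : Algebra.IsAlgebraic ℤ k :=
    ⟨fun x => (IsFractionRing.isAlgebraic_iff ℤ ℚ k).2 (Algebra.IsAlgebraic.isAlgebraic x)⟩
  obtain ⟨n, hn0, hn⟩ := Algebra.IsAlgebraic.exists_integral_multiples ℤ C
  obtain ⟨p, hpn, hp⟩ := Nat.exists_infinite_primes (n.natAbs + 1)
  have : Fact p.Prime := ⟨hp⟩
  have hcop : IsCoprime n (p : ℤ) := by
    rw [Int.isCoprime_iff_gcd_eq_one, Int.gcd, Int.natAbs_natCast]
    refine Nat.Coprime.symm ((Nat.Prime.coprime_iff_not_dvd hp).2 fun h => ?_)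
    have := Nat.le_of_dvd (Int.natAbs_pos.2 hn0) h
    omega
  let f : k →+* PadicAlgCl p := (IsAlgClosed.lift : k →ₐ[ℚ] PadicAlgCl p).toRingHom
  let v : AbsoluteValue k ℝ :=
    { toFun := fun x => ‖f x‖
      map_mul' := fun x y => by rw [map_mul, norm_mul]
      nonneg' := fun x => norm_nonneg _
      eq_zero' := fun x => by simp
      add_le' := fun x y => by rw [map_add]; exact norm_add_le _ _ }
  have hv : ∀ x, v x = ‖f x‖ := fun x => rfl
  have hint : ∀ z : ℤ, v z = ‖(z : ℚ_[p])‖ := by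
    intro z
    rw [hv, map_intCast, ← PadicAlgCl.norm_extends, map_intCast]
  have hnat : ∀ z : ℕ, v z = ‖(z : ℚ_[p])‖ := by
    intro z
    have := hint z
    rwa [Int.cast_natCast, Int.cast_natCast] at this
  refine ⟨v, p, n, hp, fun x y => ?_, ?_, fun m hm => ?_, hcop, hn, fun c hc => ?_⟩
  · rw [hv, hv, hv, map_add]
    exact PadicAlgCl.isNonarchimedean p _ _
  · rw [hnat, Padic.norm_p]
  · rw [hnat, Padic.norm_natCast_eq_one_iff]
    exact (Nat.Prime.coprime_iff_not_dvd hp).2 hm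
  · have h1 : IsIntegral ℤ (f (n • c)) := map_isIntegral_int f (hn c hc)
    have h2 : IsIntegral (NormedField.valuation (K := PadicAlgCl p)).integer (f (n • c)) :=
      h1.tower_top
    have h3 := (Valuation.integer.integers _).mem_of_integral h2
    have h4 : ‖f (n • c)‖₊ ≤ 1 := h3
    have h5 : v (n • c) ≤ 1 := h4
    rw [zsmul_eq_mul, map_mul, hint, Padic.norm_intCast_eq_one_iff.2 hcop, one_mul] at h5
    exact h5

end val

section fn

variable {k : Type} [Field k] {σ : Type} {S : Type}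

theorem na_add {v : AbsoluteValue k ℝ} (hv : IsNonarchimedean v) {x y : k} {r : ℝ}
    (hx : v x ≤ r) (hy : v y ≤ r) : v (x + y) ≤ r := (hv x y).trans (max_le hx hy)

theorem na_sub {v : AbsoluteValue k ℝ} (hv : IsNonarchimedean v) {x y : k} {r : ℝ}
    (hx : v x ≤ r) (hy : v y ≤ r) : v (x - y) ≤ r := by
  rw [sub_eq_add_neg]
  exact na_add hv hx (by rwa [v.map_neg])

theorem na_eq_one {v : AbsoluteValue k ℝ} (hv : IsNonarchimedean v) {x : k}
    (hx : v (1 - x) < 1) : v x = 1 := by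
  apply le_antisymm
  · have : x = 1 - (1 - x) := by ring
    rw [this]
    exact na_sub hv (by simp) hx.le
  · by_contra h
    push Not at h
    have h1 := hv x (1 - x)
    rw [add_sub_cancel, map_one] at h1
    exact absurd (max_lt h hx) (not_lt.2 h1)

/-- Bounded by `a` and `b`-Lipschitz. -/
def B (v : AbsoluteValue k ℝ) (θ : S → σ → k) (a b : ℝ) (u : S → k) : Prop :=
  (∀ y, v (u y) ≤ a) ∧ ∀ y y' (r : ℝ), 0 ≤ r → (∀ l, v (θ y l - θ y' l) ≤ r) →
    v (u y - u y') ≤ b * r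

variable {v : AbsoluteValue k ℝ} {θ : S → σ → k}

theorem B.add (hv : IsNonarchimedean v) {a b : ℝ} {u w : S → k} (hu : B v θ a b u)
    (hw : B v θ a b w) : B v θ a b (u + w) := by
  refine ⟨fun y => na_add hv (hu.1 y) (hw.1 y), fun y y' r hr h => ?_⟩
  have : (u + w) y - (u + w) y' = (u y - u y') + (w y - w y') := by
    simp only [Pi.add_apply]; ring
  rw [this]
  exact na_add hv (hu.2 y y' r hr h) (hw.2 y y' r hr h)

theorem B.neg {a b : ℝ} {u : S → k} (hu : B v θ a b u) : B v θ a b (-u) := by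
  refine ⟨fun y => by simpa using hu.1 y, fun y y' r hr h => ?_⟩
  have : (-u) y - (-u) y' = -(u y - u y') := by
    simp only [Pi.neg_apply]; ring
  rw [this, v.map_neg]
  exact hu.2 y y' r hr h

theorem B.const {a b : ℝ} {c : k} (hc : v c ≤ a) (hb : 0 ≤ b) : B v θ a b (fun _ => c) := by
  refine ⟨fun _ => hc, fun y y' r hr _ => ?_⟩
  rw [sub_self, map_zero]
  exact mul_nonneg hb hr

theorem B.mul (hv : IsNonarchimedean v) {a b a' b' c d : ℝ} {u w : S → k} (hu : B v θ a b u)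
    (hw : B v θ a' b' w) (hb : 0 ≤ b) (hc : a * a' ≤ c) (hd : a * b' ≤ d) (hd' : b * a' ≤ d) :
    B v θ c d (u * w) := by
  refine ⟨fun y => ?_, fun y y' r hr h => ?_⟩
  · rw [Pi.mul_apply, map_mul]
    exact (mul_le_mul (hu.1 y) (hw.1 y) (v.nonneg _) ((v.nonneg _).trans (hu.1 y))).trans hc
  · have : (u * w) y - (u * w) y' = u y * (w y - w y') + (u y - u y') * w y' := by
      simp only [Pi.mul_apply]; ring
    rw [this]
    refine na_add hv ?_ ?_
    · rw [map_mul]
      refine (mul_le_mul (hu.1 y) (hw.2 y y' r hr h) (v.nonneg _)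
        ((v.nonneg _).trans (hu.1 y))).trans ?_
      rw [← mul_assoc]
      exact mul_le_mul_of_nonneg_right hd hr
    · rw [map_mul]
      refine (mul_le_mul (hu.2 y y' r hr h) (hw.1 y') (v.nonneg _) (mul_nonneg hb hr)).trans ?_
      rw [mul_right_comm]
      exact mul_le_mul_of_nonneg_right hd' hr

theorem B.inv {u : S → k} (hu : B v θ 1 1 u) (h1 : ∀ y, v (u y) = 1) :
    B v θ 1 1 (fun y => (u y)⁻¹) := by
  have h0 : ∀ y, u y ≠ 0 := fun y h => by
    have := h1 y
    rw [h, map_zero] at this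
    exact zero_ne_one this
  refine ⟨fun y => by rw [map_inv₀, h1, inv_one], fun y y' r hr h => ?_⟩
  have : (u y)⁻¹ - (u y')⁻¹ = -(u y - u y') * ((u y)⁻¹ * (u y')⁻¹) := by
    have := h0 y
    have := h0 y'
    field_simp
    ring
  show v ((u y)⁻¹ - (u y')⁻¹) ≤ _
  rw [this, map_mul, map_mul, map_inv₀, map_inv₀, h1, h1, v.map_neg, inv_one, mul_one, mul_one]
  exact hu.2 y y' r hr h

theorem B.comp {a b : ℝ} {u : S → k} (hu : B v θ a b u) {g : S → S}
    (hg : ∀ y y' (r : ℝ), (∀ l, v (θ y l - θ y' l) ≤ r) → ∀ l, v (θ (g y) l - θ (g y') l) ≤ r) :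
    B v θ a b (fun y => u (g y)) :=
  ⟨fun y => hu.1 (g y), fun y y' r hr h => hu.2 (g y) (g y') r hr (hg y y' r h)⟩

/-- The ring of bounded Lipschitz functions. -/
def FF (hv : IsNonarchimedean v) (θ : S → σ → k) : Subring (S → k) where
  carrier := {u | B v θ 1 1 u}
  mul_mem' := fun hu hw => B.mul hv hu hw zero_le_one (by simp) (by simp) (by simp)
  one_mem' := B.const (c := 1) (by simp) zero_le_one
  add_mem' := fun hu hw => B.add hv hu hw
  zero_mem' := B.const (c := 0) (by simp) zero_le_one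
  neg_mem' := fun hu => B.neg hu

/-- The ideals of small functions. -/
def J (hv : IsNonarchimedean v) (θ : S → σ → k) {ρ : ℝ} (h0 : 0 ≤ ρ) (h1 : ρ ≤ 1) (q : ℕ) :
    Ideal (FF hv θ) where
  carrier := {u | B v θ (ρ ^ (q + 1)) (ρ ^ q) u.1}
  add_mem' := fun hu hw => B.add hv hu hw
  zero_mem' := B.const (c := 0) (by simp; positivity) (by positivity)
  smul_mem' := fun c u hu => B.mul hv c.2 hu zero_le_one (by simp) (by simp)
    (by rw [one_mul]; exact pow_le_pow_of_le_one h0 h1 (Nat.le_succ q))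

theorem B.pow (hv : IsNonarchimedean v) {ρ : ℝ} {u : S → k} (hu : B v θ ρ 1 u) (q : ℕ) :
    B v θ (ρ ^ (q + 1)) (ρ ^ q) (u ^ (q + 1)) := by
  induction q with
  | zero => simpa using hu
  | succ q ih =>
    rw [pow_succ' u]
    exact B.mul hv hu ih zero_le_one (by rw [← pow_succ']) (by rw [← pow_succ']) (by simp)

theorem eval_mem [Fintype σ] (R : Subring (S → k)) (P : MvPolynomial σ k)
    (hP : ∀ m, (fun _ : S => P.coeff m) ∈ R) (x : S → σ → k) (hx : ∀ l, (fun y => x y l) ∈ R) :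
    (fun y => eval (x y) P) ∈ R := by
  have : (fun y => eval (x y) P)
      = ∑ m ∈ P.support, (fun _ : S => P.coeff m) * ∏ l, (fun y => x y l) ^ m l := by
    funext y
    rw [eval_eq']
    simp [Finset.sum_apply, Finset.prod_apply]
  rw [this]
  exact R.sum_mem fun m _ => R.mul_mem (hP m) (R.prod_mem fun l _ => R.pow_mem (hx l) _)

theorem poly_lip [Fintype σ] (hv : IsNonarchimedean v) (P : MvPolynomial σ k)
    (hP : ∀ m, v (P.coeff m) ≤ 1) (x x' : σ → k) (hx : ∀ l, v (x l) ≤ 1) (hx' : ∀ l, v (x' l) ≤ 1)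
    (r : ℝ) (hr : 0 ≤ r) (h : ∀ l, v (x l - x' l) ≤ r) : v (eval x P - eval x' P) ≤ r := by
  have h1 := eval_mem (FF hv (fun y : {x : σ → k // ∀ l, v (x l) ≤ 1} => y.1)) P
    (fun m => B.const (hP m) zero_le_one) (fun y => y.1)
    (fun l => ⟨fun y => y.2 l, fun y y' r _ h => by rw [one_mul]; exact h l⟩)
  have h2 := h1.2 ⟨x, hx⟩ ⟨x', hx'⟩ r hr h
  rwa [one_mul] at h2

/-- The abstract rigidity lemma. -/
theorem rigid [Fintype σ] (hv : IsNonarchimedean v) (hθ : Function.Injective θ) {p : ℕ}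
    (hp : p.Prime) {ρ : ℝ} (h0 : 0 < ρ) (h1 : ρ < 1) (hvp : v p = ρ)
    (hvn : ∀ m : ℕ, ¬ p ∣ m → v m = 1) (P : Set S) (m : ℕ) :
    ∀ φ : S → S, Set.MapsTo φ P P →
      (∀ x ∈ P, ∀ x' ∈ P, ∀ r : ℝ, 0 ≤ r → (∀ l, v (θ x l - θ x' l) ≤ r) →
        ∀ l, v ((θ (φ x) l - θ (φ x') l) - (θ x l - θ x' l)) ≤ ρ ^ 2 * r) →
      0 < m → ∀ x ∈ P, φ^[m] x = x → φ x = x := by
  have hρ2 : ρ ^ 2 < ρ := by nlinarith
  have hiter : ∀ φ : S → S, Set.MapsTo φ P P →
      (∀ x ∈ P, ∀ x' ∈ P, ∀ r : ℝ, 0 ≤ r → (∀ l, v (θ x l - θ x' l) ≤ r) →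
        ∀ l, v ((θ (φ x) l - θ (φ x') l) - (θ x l - θ x' l)) ≤ ρ ^ 2 * r) →
      ∀ i : ℕ, ∀ x ∈ P, ∀ x' ∈ P, ∀ r : ℝ, 0 ≤ r → (∀ l, v (θ x l - θ x' l) ≤ r) →
        ∀ l, v ((θ (φ^[i] x) l - θ (φ^[i] x') l) - (θ x l - θ x' l)) ≤ ρ ^ 2 * r := by
    intro φ hm hφ i
    induction i with
    | zero =>
      intro x _ x' _ r hr _ l
      simp only [Function.iterate_zero, id, sub_self, map_zero]
      positivity
    | succ i ih =>
      intro x hx x' hx' r hr h l
      have h2 : ∀ l, v (θ (φ^[i] x) l - θ (φ^[i] x') l) ≤ r := by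
        intro l
        have h3 := ih x hx x' hx' r hr h l
        have h4 : ρ ^ 2 * r ≤ r := by nlinarith
        have h5 := na_add hv (h3.trans h4) (h l)
        rwa [sub_add_cancel] at h5
      have h3 := hφ _ (hm.iterate i hx) _ (hm.iterate i hx') r hr h2 l
      have h4 := na_add hv h3 (ih x hx x' hx' r hr h l)
      rw [sub_add_sub_cancel] at h4
      rw [Function.iterate_succ_apply', Function.iterate_succ_apply']
      exact h4
  have hone : ∀ φ : S → S, Set.MapsTo φ P P →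
      (∀ x ∈ P, ∀ x' ∈ P, ∀ r : ℝ, 0 ≤ r → (∀ l, v (θ x l - θ x' l) ≤ r) →
        ∀ l, v ((θ (φ x) l - θ (φ x') l) - (θ x l - θ x' l)) ≤ ρ ^ 2 * r) →
      ∀ m : ℕ, ρ ≤ v m → ∀ x ∈ P, φ^[m] x = x → φ x = x := by
    intro φ hm hφ m hvm x hx hper
    by_contra hne
    have hne' : θ (φ x) ≠ θ x := fun h => hne (hθ h)
    obtain ⟨l0, hl0⟩ := Function.ne_iff.1 hne'
    have : Nonempty σ := ⟨l0⟩
    obtain ⟨l1, hl1⟩ := Finite.exists_max (fun l => v (θ (φ x) l - θ x l))
    set r := v (θ (φ x) l1 - θ x l1) with hr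
    have hr0 : 0 < r := lt_of_lt_of_le (v.pos (sub_ne_zero.2 hl0)) (hl1 l0)
    have key : ∀ i : ℕ,
        v (θ (φ^[i] x) l1 - θ x l1 - i * (θ (φ x) l1 - θ x l1)) ≤ ρ ^ 2 * r := by
      intro i
      induction i with
      | zero => simp; positivity
      | succ i ih =>
        have h2 := hiter φ hm hφ i _ (hm hx) _ hx r hr0.le hl1 l1
        have h3 := na_add hv h2 ih
        rw [Function.iterate_succ_apply]
        convert h3 using 2
        push_cast
        ring
    have h2 := key m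
    rw [hper, sub_self, zero_sub, v.map_neg, map_mul, ← hr] at h2
    nlinarith
  induction m using Nat.strong_induction_on with
  | _ m ih =>
  intro φ hm hφ hm0 x hx hper
  by_cases hd : p ∣ m
  · obtain ⟨m', rfl⟩ := hd
    have hm' : 0 < m' := Nat.pos_of_mul_pos_left hm0
    have hlt : m' < p * m' := by nlinarith [hp.two_le]
    have h2 := ih m' hlt φ^[p] (hm.iterate p) (hiter φ hm hφ p) hm' x hx
      (by rw [← Function.iterate_mul]; exact hper)
    exact hone φ hm hφ p hvp.ge x hx h2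
  · exact hone φ hm hφ m (by rw [hvn m hd]; exact h1.le) x hx hper

/-- The pigeonhole step. -/
theorem pigeon [Fintype σ] (hv : IsNonarchimedean v) {p : ℕ} {ρ : ℝ} (h0 : 0 ≤ ρ) (h1 : ρ < 1)
    (hp : p ≠ 0) (hvp : v p = ρ) {n : ℤ} (hn : IsCoprime n (p : ℤ)) (C : Finset k)
    (hCi : ∀ c ∈ C, IsIntegral ℤ (n • c)) (hC : ∀ c ∈ C, v c ≤ 1)
    (a : σ → MvPolynomial σ k) (h : MvPolynomial σ k) (ha : ∀ l m, (a l).coeff m ∈ C)
    (hh : ∀ m, h.coeff m ∈ C) (hh1 : constantCoeff h = 1) (g : S → S)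
    (hθ : ∀ y l, v (θ y l) ≤ ρ)
    (hg : ∀ y l, θ (g y) l * eval (θ y) h = eval (θ y) (a l))
    (hlip : ∀ y y' (r : ℝ), (∀ l, v (θ y l - θ y' l) ≤ r) →
      ∀ l, v (θ (g y) l - θ (g y') l) ≤ r) (q : ℕ) :
    ∃ s d : ℕ, 0 < d ∧ ∀ t, s ≤ t → ∀ i l,
      B v θ (ρ ^ (q + 1)) (ρ ^ q) (fun y => θ (g^[t] y) l - θ (g^[t + d * i] y) l) := by
  classical
  have hlipn : ∀ t : ℕ, ∀ y y' (r : ℝ), (∀ l, v (θ y l - θ y' l) ≤ r) →
      ∀ l, v (θ (g^[t] y) l - θ (g^[t] y') l) ≤ r := by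
    intro t
    induction t with
    | zero => intro y y' r h; exact h
    | succ t ih =>
      intro y y' r h
      rw [Function.iterate_succ_apply', Function.iterate_succ_apply']
      exact hlip _ _ r (ih y y' r h)
  have hθB : ∀ l, B v θ ρ 1 (fun y => θ y l) := fun l =>
    ⟨fun y => hθ y l, fun y y' r _ h => by rw [one_mul]; exact h l⟩
  have hup : ∀ u : S → k, B v θ ρ 1 u → u ∈ FF hv θ := fun u hu =>
    ⟨fun y => (hu.1 y).trans h1.le, hu.2⟩
  let X : ℕ → σ → FF hv θ := fun t l =>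
    ⟨fun y => θ (g^[t] y) l, hup _ ((hθB l).comp (hlipn t))⟩
  let κ : C → FF hv θ := fun c => ⟨fun _ => c.1, B.const (hC c.1 c.2) zero_le_one⟩
  let I : Ideal (FF hv θ) := J hv θ h0 h1.le q
  let π : FF hv θ →+* FF hv θ ⧸ I := Ideal.Quotient.mk I
  have hnil : ∀ u : FF hv θ, B v θ ρ 1 u.1 → π u ^ (q + 1) = 0 := by
    intro u hu
    rw [← map_pow]
    exact Ideal.Quotient.eq_zero_iff_mem.2 (hu.pow hv q)
  have hpq : ((p : ℤ) : FF hv θ ⧸ I) ^ (q + 1) = 0 := by
    have := hnil (p : FF hv θ) (B.const (c := (p : k)) hvp.le zero_le_one)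
    rwa [map_natCast, ← Int.cast_natCast] at this
  let gens : Set (FF hv θ ⧸ I) := Set.range (fun c => π (κ c)) ∪ Set.range (fun l => π (X 0 l))
  let Q : Subalgebra ℤ (FF hv θ ⧸ I) := Algebra.adjoin ℤ gens
  have hfin : Finite Q := by
    have hfg : Q.toSubmodule.FG := by
      refine fg_adjoin_of_finite ((Set.finite_range _).union (Set.finite_range _)) ?_
      rintro x (⟨c, rfl⟩ | ⟨l, rfl⟩)
      · have h2 : IsIntegral ℤ (n • κ c) := by
          rw [← isIntegral_algHom_iff (FF hv θ).subtype.toIntAlgHom Subtype.val_injective]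
          exact map_isIntegral_int (Pi.constRingHom S k) (hCi c.1 c.2)
        have h3 : IsIntegral ℤ (π (n • κ c)) := map_isIntegral_int π h2
        obtain ⟨α, β, hαβ⟩ := hn.pow_right (n := q + 1)
        have h4 : ((α : FF hv θ ⧸ I)) * (n : FF hv θ ⧸ I) = 1 := by
          have h5 := congrArg (Int.cast : ℤ → FF hv θ ⧸ I) hαβ
          rw [Int.cast_add, Int.cast_mul, Int.cast_mul, Int.cast_pow, hpq, mul_zero, add_zero,
            Int.cast_one] at h5
          exact h5
        have h5 : π (κ c) = α • π (n • κ c) := by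
          rw [map_zsmul, zsmul_eq_mul, zsmul_eq_mul, ← mul_assoc, h4, one_mul]
        show IsIntegral ℤ (π (κ c))
        rw [h5]
        exact h3.smul α
      · refine ⟨Polynomial.X ^ (q + 1), Polynomial.monic_X_pow _, ?_⟩
        rw [Polynomial.eval₂_X_pow]
        exact hnil _ (hθB l)
    have : Module.Finite ℤ Q.toSubmodule := Module.Finite.iff_fg.2 hfg
    have h2 : Finite Q.toSubmodule := by
      refine Module.finite_of_fg_torsion _ fun x => ⟨⟨(p : ℤ) ^ (q + 1), ?_⟩, ?_⟩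
      · exact mem_nonZeroDivisors_of_ne_zero (pow_ne_zero _ (by exact_mod_cast hp))
      · apply Subtype.ext
        show ((p : ℤ) ^ (q + 1)) • x.1 = 0
        rw [zsmul_eq_mul, Int.cast_pow, hpq, zero_mul]
    exact h2
  let R : Subring (S → k) := (Q.toSubring.comap π).map (FF hv θ).subtype
  have hR : ∀ u : FF hv θ, π u ∈ Q → u.1 ∈ R := fun u hu => ⟨u, hu, rfl⟩
  have hR' : ∀ u : FF hv θ, u.1 ∈ R → π u ∈ Q := by
    rintro u ⟨w, hw, hwu⟩
    have : w = u := Subtype.ext hwu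
    rw [← this]
    exact hw
  have hRc : ∀ c ∈ C, (fun _ : S => c) ∈ R := fun c hc =>
    hR (κ ⟨c, hc⟩) (Algebra.subset_adjoin (Or.inl ⟨⟨c, hc⟩, rfl⟩))
  have hX : ∀ t l, π (X t l) ∈ Q := by
    intro t
    induction t with
    | zero => exact fun l => Algebra.subset_adjoin (Or.inr ⟨l, rfl⟩)
    | succ t ih =>
      intro l
      have hev : ∀ P : MvPolynomial σ k, (∀ m, P.coeff m ∈ C) →
          (fun y => eval (θ (g^[t] y)) P) ∈ R := fun P hP =>
        eval_mem R P (fun m => hRc _ (hP m)) (fun y => θ (g^[t] y)) (fun l => hR (X t l) (ih l))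
      obtain ⟨A, hA, hA'⟩ := hev (a l) (ha l)
      obtain ⟨H, hH, hH'⟩ := hev h hh
      have hA1 : π A ∈ Q := hA
      have hH1 : π H ∈ Q := hH
      have hA2 : ∀ y, A.1 y = eval (θ (g^[t] y)) (a l) := fun y => congrFun hA' y
      have hH2 : ∀ y, H.1 y = eval (θ (g^[t] y)) h := fun y => congrFun hH' y
      have hmul : X (t + 1) l * H = A := by
        apply Subtype.ext
        funext y
        show θ (g^[t + 1] y) l * H.1 y = A.1 y
        rw [hA2, hH2, Function.iterate_succ_apply', hg]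
      have hj : B v θ ρ 1 (1 - H).1 := by
        refine ⟨fun y => ?_, (1 - H).2.2⟩
        show v (1 - H.1 y) ≤ ρ
        rw [hH2]
        have h2 := poly_lip hv h (fun m => hC _ (hh m)) 0 (θ (g^[t] y)) (fun l => by simp)
          (fun l => (hθ _ l).trans h1.le) ρ h0 (fun l => by simpa using hθ _ l)
        rwa [eval_zero, hh1] at h2
      have h2 := hnil _ hj
      have h3 := mul_neg_geom_sum (π (1 - H)) (q + 1)
      rw [h2, sub_zero, map_sub, map_one, sub_sub_cancel] at h3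
      have h4 : π (X (t + 1) l) = π A * ∑ i ∈ Finset.range (q + 1), (1 - π H) ^ i := by
        rw [← hmul, map_mul, mul_assoc, h3, mul_one]
      rw [h4]
      exact Q.mul_mem hA1 (Q.sum_mem fun i _ => Q.pow_mem (Q.sub_mem Q.one_mem hH1) i)
  obtain ⟨s, s', hss, heq⟩ : ∃ s s' : ℕ, s < s' ∧ ∀ l, π (X s l) = π (X s' l) := by
    obtain ⟨s, s', hne, he⟩ := Finite.exists_ne_map_eq_of_infinite
      (fun t : ℕ => fun l : σ => (⟨π (X t l), hX t l⟩ : Q))
    have he' : ∀ l, π (X s l) = π (X s' l) := fun l => congrArg Subtype.val (congrFun he l)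
    rcases lt_or_gt_of_ne hne with h2 | h2
    · exact ⟨s, s', h2, he'⟩
    · exact ⟨s', s, h2, fun l => (he' l).symm⟩
  have hstep : ∀ t, s ≤ t → ∀ l, B v θ (ρ ^ (q + 1)) (ρ ^ q)
      (fun y => θ (g^[t] y) l - θ (g^[t + (s' - s)] y) l) := by
    intro t ht l
    have h2 : B v θ (ρ ^ (q + 1)) (ρ ^ q) (X s l - X s' l).1 := Ideal.Quotient.eq.1 (heq l)
    have h3 := h2.comp (hlipn (t - s))
    convert h3 using 2 with y
    show _ = θ (g^[s] (g^[t - s] y)) l - θ (g^[s'] (g^[t - s] y)) l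
    rw [← Function.iterate_add_apply, ← Function.iterate_add_apply]
    have e1 : s + (t - s) = t := by omega
    have e2 : s' + (t - s) = t + (s' - s) := by omega
    rw [e1, e2]
  refine ⟨s, s' - s, by omega, fun t ht i l => ?_⟩
  induction i with
  | zero =>
    simp only [mul_zero, add_zero, sub_self]
    exact B.const (by simp; positivity) (by positivity)
  | succ i ih =>
    have h2 := ih.add hv (hstep (t + (s' - s) * i) (by omega) l)
    convert h2 using 2 with y
    simp only [Pi.add_apply, sub_add_sub_cancel]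
    rw [mul_add, mul_one, add_assoc]

end fn

theorem thm_dyn : Pool.Agent.H505Z.NP.S_dyn := by
  classical
  intro k _ _ _ σ _ a h C _ hh1
  let C' : Finset k := C ∪ (insert 0 (h.coeffs ∪ Finset.univ.biUnion fun l => (a l).coeffs))
  have hco : ∀ (P : MvPolynomial σ k) m, P.coeff m = 0 ∨ P.coeff m ∈ P.coeffs := by
    intro P m
    by_cases h0 : P.coeff m = 0
    · exact Or.inl h0
    · exact Or.inr (coeff_mem_coeffs m h0)
  have ha : ∀ l m, (a l).coeff m ∈ C' := by
    intro l m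
    simp only [C', Finset.mem_union, Finset.mem_insert, Finset.mem_biUnion]
    rcases hco (a l) m with h0 | h0
    · exact Or.inr (Or.inl h0)
    · exact Or.inr (Or.inr (Or.inr ⟨l, Finset.mem_univ _, h0⟩))
  have hh : ∀ m, h.coeff m ∈ C' := by
    intro m
    simp only [C', Finset.mem_union, Finset.mem_insert]
    rcases hco h m with h0 | h0
    · exact Or.inr (Or.inl h0)
    · exact Or.inr (Or.inr (Or.inl h0))
  obtain ⟨v, p, n, hp, hv, hvp, hvn, hn, hCi, hC⟩ := exists_val k C'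
  have hp1 : (1 : ℝ) < p := by exact_mod_cast hp.one_lt
  have h0 : (0 : ℝ) < (p : ℝ)⁻¹ := inv_pos.2 (by linarith)
  have h1 : (p : ℝ)⁻¹ < 1 := inv_lt_one_of_one_lt₀ hp1
  set ρ : ℝ := (p : ℝ)⁻¹ with hρ
  refine ⟨v, ρ, hv, h0, h1, ⟨p, by exact_mod_cast hp.ne_zero, by rw [hvp]; exact h1⟩,
    fun c hc => hC c (Finset.mem_union_left _ hc), fun l m => hC _ (ha l m),
    fun m => hC _ (hh m), ?_⟩
  intro S g θ hinj hθ hg
  have hlip : ∀ y y' (r : ℝ), (∀ l, v (θ y l - θ y' l) ≤ r) →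
      ∀ l, v (θ (g y) l - θ (g y') l) ≤ r := by
    intro y y' r hr l
    have hr0 : 0 ≤ r := (v.nonneg _).trans (hr l)
    have hθF : ∀ l, (fun y => θ y l) ∈ FF hv θ := fun l =>
      ⟨fun y => (hθ y l).trans h1.le, fun y y' r _ h => by rw [one_mul]; exact h l⟩
    have hA := eval_mem (FF hv θ) (a l) (fun m => B.const (hC _ (ha l m)) zero_le_one) θ hθF
    have hH := eval_mem (FF hv θ) h (fun m => B.const (hC _ (hh m)) zero_le_one) θ hθF
    have hH1 : ∀ y, v (eval (θ y) h) = 1 := by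
      intro y
      refine na_eq_one hv (lt_of_le_of_lt ?_ h1)
      have h2 := poly_lip hv h (fun m => hC _ (hh m)) 0 (θ y) (fun l => by simp)
        (fun l => (hθ _ l).trans h1.le) ρ h0.le (fun l => by simpa using hθ _ l)
      rwa [eval_zero, hh1] at h2
    have hI : (fun y => (eval (θ y) h)⁻¹) ∈ FF hv θ := B.inv hH hH1
    have h2 := ((FF hv θ).mul_mem hA hI).2 y y' r hr0 hr
    have h3 : ∀ y, θ (g y) l = eval (θ y) (a l) * (eval (θ y) h)⁻¹ := by
      intro y
      have h4 : eval (θ y) h ≠ 0 := fun h5 => by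
        have := hH1 y
        rw [h5, map_zero] at this
        exact zero_ne_one this
      rw [← hg, mul_inv_cancel_right₀ h4]
    rw [h3, h3]
    rwa [one_mul] at h2
  have hPH := pigeon hv h0.le h1 hp.ne_zero hvp hn C' hCi hC a h ha hh hh1 g hθ hg hlip
  refine ⟨hlip, ?_⟩
  obtain ⟨s, d, hd, hsd⟩ := hPH 2
  refine ⟨d * (s + 1), by positivity, fun y j hj hy => ?_, fun ε hε => ?_⟩
  · have hP : ∀ x, g^[j] x = x → ∀ t, g^[j * t] x = x := fun x hx t => by
      rw [Function.iterate_mul]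
      exact Function.iterate_fixed hx t
    refine rigid hv hinj hp h0 h1 hvp hvn {x | g^[j] x = x} j g^[d * (s + 1)] ?_ ?_ hj y hy ?_
    · intro x hx
      show g^[j] (g^[d * (s + 1)] x) = g^[d * (s + 1)] x
      have hx' : g^[j] x = x := hx
      rw [← Function.iterate_add_apply, add_comm, Function.iterate_add_apply, hx']
    · intro x hx x' hx' r hr hc l
      have h2 := (hsd (j * s) (Nat.le_mul_of_pos_left s hj) (s + 1) l).2 x x' r hr hc
      simp only [add_comm (j * s), Function.iterate_add_apply, hP x hx, hP x' hx'] at h2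
      rw [← v.map_neg]
      convert h2 using 2
      ring
    · rw [← Function.iterate_mul, mul_comm]
      exact hP y hy _
  · obtain ⟨q, hq⟩ := exists_pow_lt_of_lt_one hε h1
    obtain ⟨s', d', hd', hsd'⟩ := hPH q
    refine ⟨s', fun y z m hz hyz t ht l => ?_⟩
    have hN : 0 < d * (s + 1) := by positivity
    have h2 := (hsd' (d * (s + 1) * t) (ht.trans (Nat.le_mul_of_pos_left t hN))
      (d * (s + 1) * m) l).1 y
    have h3 : g^[d * (s + 1) * t + d' * (d * (s + 1) * m)] y = z := by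
      obtain ⟨e, rfl⟩ : ∃ e, d' = e + 1 := ⟨d' - 1, by omega⟩
      have e1 : d * (s + 1) * t + (e + 1) * (d * (s + 1) * m)
          = d * (s + 1) * (t + e * m + m) := by ring
      rw [e1, Function.iterate_mul, Function.iterate_add_apply, hyz]
      exact Function.iterate_fixed hz _
    simp only [h3] at h2
    rw [← Function.iterate_mul]
    refine lt_of_le_of_lt h2 (lt_of_le_of_lt ?_ hq)
    exact pow_le_pow_of_le_one h0.le h1.le (Nat.le_succ q)

end Pool.Agent.H177Z.NPDyn
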